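import Mathlib
import Pool.Agent.Q1.M5.Defs
import Pool.Agent.H78.Q1.Moeb
import Pool.Agent.H78.Q1.Struct

set_option autoImplicit false
open Set Filter Topology

/-! Module M5, step C2 (k-point functions converge): definitions and statements of the pieces.
Text: team-store `Q1_C2.md`. -/

namespace Pool.Agent.H44.Q1

open Pool.Agent.H75.Perc Pool.Agent.H75.Four Pool.Agent.H49.Q1 Pool.Agent.Q1.M4 Pool.Agent.Q1.M5

/-! ### Hulls -/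

/-- Random labels which belong to no cell of the domain outside `A`. -/
noncomputable def LA (P : PType) (X Y : ℤ → ℤ) (A : Finset Cell) : Finset (ℤ × ℤ) :=
  EL P X Y \ gs X Y (P.Q \ A)

/-- Vertical lines with index not divisible by 3 are not part of the boundary. -/
def Tri (Q : Finset Cell) : Prop := ∀ a b : ℤ, a % 3 ≠ 0 → ((a - 1, b) ∈ Q ↔ (a, b) ∈ Q)

/-- `A` is a hull: union of tiles, attached to the free arc on the right of the flat vertex `n1`, not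
containing the cells at this vertex and the last wired cell before the mark `a` (helper78). -/
abbrev Hull (P : PType) (n1 : ℕ) (A : Finset Cell) : Prop := H78.Q1.IsHull P n1 A

open Classical in
/-- The finite family of hulls. -/
noncomputable def Hs (P : PType) (n1 : ℕ) : Finset (Finset Cell) :=
  P.Q.powerset.filter (fun A => Hull P n1 A)

/-- The vertex `n1` is joined to the wired arc without the labels of `A`. -/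
def XA (P : PType) (X Y : ℤ → ℤ) (n1 : ℕ) (A : Finset Cell) (ω : Finset (ℤ × ℤ)) : Prop :=
  CT P X Y (lv P X Y n1) (ω \ LA P X Y A)

/-- The maximal hull avoided by the connection of `n1` to the wired arc. -/
noncomputable def Ah (P : PType) (X Y : ℤ → ℤ) (n1 : ℕ) (ω : Finset (ℤ × ℤ)) : Finset Cell :=
  H78.Q1.hull (Hs P n1) (XA P X Y n1) ω

/-- `v` is joined inside the hull `A` to the wired arc or to the rest of the domain. -/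
def BA (P : PType) (X Y : ℤ → ℤ) (A : Finset Cell) (v : ℤ × ℤ) (ω : Finset (ℤ × ℤ)) : Prop :=
  ∃ z, (TV P X Y z ∨ inV (P.Q \ A) X Y z) ∧ Co (ω ∩ LA P X Y A) v z

/-- The `k`-point function. -/
noncomputable def kp (P : PType) (X Y : ℤ → ℤ) (s : Finset ℕ) : ℝ :=
  Pr (EL P X Y) (fun ω => ∀ n ∈ s, CT P X Y (lv P X Y n) ω)

/-- The event that `n1` is joined to the wired arc with maximal hull `A`. -/
def XH (P : PType) (X Y : ℤ → ℤ) (n1 : ℕ) (A : Finset Cell) (ω : Finset (ℤ × ℤ)) : Prop :=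
  CT P X Y (lv P X Y n1) ω ∧ Ah P X Y n1 ω = A

open Classical in
/-- The main term. -/
noncomputable def UU (P : PType) (X Y : ℤ → ℤ) (n1 : ℕ) (s : Finset ℕ) (K : ℕ → Finset Cell) : ℝ :=
  ∑ A ∈ (Hs P n1).filter (fun A => ∀ i ∈ s, K i ⊆ A),
    Pr (EL P X Y) (XH P X Y n1 A) *
      Pr (LA P X Y A) (fun ω => ∀ i ∈ s, BA P X Y A (lv P X Y i) ω)

/-- The bad event of the lower bound. -/
def GG (P : PType) (X Y : ℤ → ℤ) (n1 : ℕ) (s : Finset ℕ) (K : ℕ → Finset Cell)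
    (ω : Finset (ℤ × ℤ)) : Prop :=
  CT P X Y (lv P X Y n1) ω ∧ (∀ l ∈ s, K l ⊆ Ah P X Y n1 ω) ∧
    (∀ l ∈ s, BA P X Y (Ah P X Y n1 ω) (lv P X Y l) ω) ∧ ¬ ∀ l ∈ s, CT P X Y (lv P X Y l) ω

/-- The lattice lines near `Q` have gaps at least `g`. -/
def Gap (Q : Finset Cell) (X Y : ℤ → ℤ) (g : ℤ) : Prop :=
  StrictMono X ∧ StrictMono Y ∧ ∀ c ∈ Q, ∀ d : Cell, |d.1 - c.1| ≤ 2 → |d.2 - c.2| ≤ 2 →
    X d.1 + g ≤ X (d.1 + 1) ∧ Y d.2 + g ≤ Y (d.2 + 1)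

/-! ### Refinements (helper48) -/

/-- `P2` is a refinement of `P` (coarse line `a` = fine line `i a`, `k a`; the coarse boundary vertex
`n` is the fine boundary vertex `φ n`). -/
structure Refi (P P2 : PType) (i k : ℤ → ℤ) (φ : ℕ → ℕ) : Prop where
  hi : StrictMono i
  hi3 : ∀ c ∈ P.Q, ∀ a, |a - c.1| ≤ 3 → i a % 3 = 0
  hk : StrictMono k
  hφ : StrictMono φ
  Q : ∀ d : Cell, d ∈ P2.Q ↔ ∃ c ∈ P.Q, (i c.1 ≤ d.1 ∧ d.1 < i (c.1 + 1)) ∧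
    (k c.2 ≤ d.2 ∧ d.2 < k (c.2 + 1))
  zero : φ 0 = 0
  m : φ P.m = P2.m
  N : φ P.N = P2.N
  vert : ∀ n, P2.vert (φ n) = (i (P.vert n).1, k (P.vert n).2)
  sdir : ∀ n n', φ n ≤ n' → n' < φ (n + 1) → (P2.side n').2 = (P.side n).2
  side : ∀ n n', φ n ≤ n' → n' < φ (n + 1) →
    (i (P.side n).1.1 ≤ (P2.side n').1.1 ∧ (P2.side n').1.1 < i ((P.side n).1.1 + 1)) ∧
    (k (P.side n).1.2 ≤ (P2.side n').1.2 ∧ (P2.side n').1.2 < k ((P.side n).1.2 + 1))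
  EL : ∀ X Y : ℤ → ℤ, StrictMono X → StrictMono Y → EL P2 X Y = EL P (X ∘ i) (Y ∘ k)
  WL : ∀ X Y : ℤ → ℤ, StrictMono X → StrictMono Y → WL P2 X Y = WL P (X ∘ i) (Y ∘ k)
  TV : ∀ X Y : ℤ → ℤ, StrictMono X → StrictMono Y → ∀ v, TV P2 X Y v ↔ TV P (X ∘ i) (Y ∘ k) v

/-- The cells of `Q` have mesh at most `η`. -/
def MeshLe (Q : Finset Cell) (x y : ℤ → ℝ) (η : ℝ) : Prop :=
  ∀ c ∈ Q, x (c.1 + 1) - x c.1 ≤ η ∧ y (c.2 + 1) - y c.2 ≤ η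

/-- **(REF)** (helper48). -/
def StREF : Prop := ∀ (P : PType) (x y : ℤ → ℝ), StrictMono x → StrictMono y → ∀ η : ℝ, 0 < η →
  ∃ (P2 : PType) (i k : ℤ → ℤ) (φ : ℕ → ℕ) (x2 y2 : ℤ → ℝ), Refi P P2 i k φ ∧
    StrictMono x2 ∧ StrictMono y2 ∧ x = x2 ∘ i ∧ y = y2 ∘ k ∧ MeshLe P2.Q x2 y2 η ∧
    ∀ (R : ℕ → ℝ) (X Y : ℕ → ℤ → ℤ), App x y R X Y →
      ∃ X2 Y2 : ℕ → ℤ → ℤ, App x2 y2 R X2 Y2 ∧ ∀ᶠ j in atTop, X j = X2 j ∘ i ∧ Y j = Y2 j ∘ k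

/-- The cell `c` lies in the box of radius `ρ` around the grid vertex `p`. -/
def InBox (x y : ℤ → ℝ) (ρ : ℝ) (p : ℤ × ℤ) (c : Cell) : Prop :=
  (x p.1 - ρ ≤ x c.1 ∧ x (c.1 + 1) ≤ x p.1 + ρ) ∧ (y p.2 - ρ ≤ y c.2 ∧ y (c.2 + 1) ≤ y p.2 + ρ)

open Classical in
/-- The tiles of `P.Q` in the box of radius `ρ` around the boundary vertex `n` of `P`. -/
noncomputable def Kb (P : PType) (x y : ℤ → ℝ) (ρ : ℝ) (n : ℕ) : Finset Cell :=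
  P.Q.filter (fun c => ∀ d ∈ P.Q, H78.Q1.tau d = H78.Q1.tau c → InBox x y ρ (P.vert n) d)

/-- The marked vertices: `n1` flat, the vertices of `s` flat and on the right of `n1`. -/
def Marks (P : PType) (n1 : ℕ) (s : Finset ℕ) : Prop :=
  FlatV P n1 ∧ ∀ n ∈ s, FlatV P n ∧ n1 < n

/-- labels within (lattice) distance `r` of the lattice point `v` -/
def NearL (L : Finset (ℤ × ℤ)) (v : ℤ × ℤ) (r : ℝ) : Prop :=
  ∀ e ∈ L, |(e.1 : ℝ) - 2 * v.1| ≤ 2 * r ∧ |(e.2 : ℝ) - 2 * v.2| ≤ 2 * r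

/-! ### Statements of the pieces -/

/-- **(KB)** (helper44): the boxes are hulls. -/
def StKB : Prop := ∀ (P : PType) (x y : ℤ → ℝ), StrictMono x → StrictMono y →
  ∀ (n1 : ℕ) (s : Finset ℕ), Marks P n1 s → ∃ ρ0 : ℝ, 0 < ρ0 ∧ ∀ ρ, 0 < ρ → ρ ≤ ρ0 →
  ∃ η0 : ℝ, 0 < η0 ∧ ∀ (P2 : PType) (i k : ℤ → ℤ) (φ : ℕ → ℕ) (x2 y2 : ℤ → ℝ),
    Refi P P2 i k φ → StrictMono x2 → StrictMono y2 → x = x2 ∘ i → y = y2 ∘ k →
    MeshLe P2.Q x2 y2 η0 →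
    (∀ l ∈ s, Kb P2 x2 y2 ρ (φ l) ∈ Hs P2 (φ n1) ∧ (P2.side (φ l - 1)).1 ∈ Kb P2 x2 y2 ρ (φ l) ∧
      (P2.side (φ l)).1 ∈ Kb P2 x2 y2 ρ (φ l)) ∧
    ∀ (R : ℕ → ℝ) (X Y : ℕ → ℤ → ℤ), App x2 y2 R X Y → ∀ᶠ j in atTop, ∀ l ∈ s,
      NearL (LA P2 (X j) (Y j) (Kb P2 x2 y2 ρ (φ l))) (lv P2 (X j) (Y j) (φ l)) (2 * ρ * R j)

/-- **(UB)** (helper76): finite upper bound (`g0` = minimal gap, any constant). -/
def StUB (g0 : ℤ) : Prop := ∀ (P : PType) (X Y : ℤ → ℤ), Tri P.Q → Gap P.Q X Y g0 →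
  ∀ (n1 : ℕ) (s : Finset ℕ) (K : ℕ → Finset Cell), Marks P n1 s → (∀ l ∈ s, K l ∈ Hs P n1) →
    kp P X Y (insert n1 s) ≤ UU P X Y n1 s K + ∑ l ∈ s, Pr (EL P X Y)
      (fun ω => (∀ n ∈ insert n1 s, CT P X Y (lv P X Y n) ω) ∧ ¬ XA P X Y n1 (K l) ω)

/-- **(LB1)** (helper76): finite lower bound. -/
def StLB1 (g0 : ℤ) : Prop := ∀ (P : PType) (X Y : ℤ → ℤ), Tri P.Q → Gap P.Q X Y g0 →
  ∀ (n1 : ℕ) (s : Finset ℕ) (K : ℕ → Finset Cell), Marks P n1 s → (∀ l ∈ s, K l ∈ Hs P n1) →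
    UU P X Y n1 s K ≤ kp P X Y (insert n1 s) + Pr (EL P X Y) (GG P X Y n1 s K)

/-- Convergence of normalised functions with `k` points. -/
def StC2k (pz : ℝ → ℝ) (k : ℕ) : Prop := ∀ (P : PType) (x y : ℤ → ℝ), StrictMono x →
  StrictMono y → ∀ s : Finset ℕ, (∀ n ∈ s, FlatV P n) → s.card = k → ∃ g : ℝ,
  ∀ (R : ℕ → ℝ) (X Y : ℕ → ℤ → ℤ), App x y R X Y →
    Tendsto (fun j => kp P (X j) (Y j) s / pz (R j) ^ k) atTop (𝓝 g)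

/-- **(C1)** (helper78): the normalised law of the maximal hull converges. -/
def StC1 (pz : ℝ → ℝ) : Prop := ∀ (P : PType) (x y : ℤ → ℝ), StrictMono x →
  StrictMono y → Tri P.Q → ∀ n1 : ℕ, FlatV P n1 → ∀ A ∈ Hs P n1, ∃ g : ℝ,
  ∀ (R : ℕ → ℝ) (X Y : ℕ → ℤ → ℤ), App x y R X Y →
    Tendsto (fun j => Pr (EL P (X j) (Y j)) (XH P (X j) (Y j) n1 A) / pz (R j)) atTop (𝓝 g)

/-- **(UB5)** (helper76): convergence of the main term. -/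
def StU5 (pz : ℝ → ℝ) : Prop := ∀ (P : PType) (x y : ℤ → ℝ), StrictMono x →
  StrictMono y → Tri P.Q → ∀ (n1 : ℕ) (s : Finset ℕ) (K : ℕ → Finset Cell), Marks P n1 s →
  (∀ l ∈ s, K l ∈ Hs P n1 ∧ (P.side (l - 1)).1 ∈ K l ∧ (P.side l).1 ∈ K l) →
  (∀ k ≤ s.card, StC2k pz k) → ∃ g : ℝ,
  ∀ (R : ℕ → ℝ) (X Y : ℕ → ℤ → ℤ), App x y R X Y →
    Tendsto (fun j => UU P (X j) (Y j) n1 s K / pz (R j) ^ (s.card + 1)) atTop (𝓝 g)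

/-- **(NH)** (helper49): the connection from `n1` needs the box of `l` with small probability. -/
def StNH (pz : ℝ → ℝ) : Prop := ∀ (P : PType) (x y : ℤ → ℝ), StrictMono x → StrictMono y →
  ∀ (n1 : ℕ) (s : Finset ℕ), Marks P n1 s → ∃ C ρ0 : ℝ, 0 < C ∧ 0 < ρ0 ∧
  ∀ ρ, 0 < ρ → ρ ≤ ρ0 → ∀ (R : ℕ → ℝ) (X Y : ℕ → ℤ → ℤ), App x y R X Y →
    ∀ᶠ j in atTop, ∀ l ∈ s, ∀ L ⊆ EL P (X j) (Y j),
      NearL L (lv P (X j) (Y j) l) (2 * ρ * R j) →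
      Pr (EL P (X j) (Y j)) (fun ω => (∀ n ∈ insert n1 s, CT P (X j) (Y j) (lv P (X j) (Y j) n) ω) ∧
        ¬ CT P (X j) (Y j) (lv P (X j) (Y j) n1) (ω \ L)) ≤
        C * ρ ^ (1 / 3 : ℝ) * pz (R j) ^ (s.card + 1)

/-- **(LB2)** (helper90, with helper77's `approach_kpoint`). -/
def StLB2 (pz : ℝ → ℝ) : Prop := ∃ c : ℝ, 0 < c ∧ ∀ (P : PType) (x y : ℤ → ℝ), StrictMono x →
  StrictMono y → ∀ (n1 : ℕ) (s : Finset ℕ), Marks P n1 s → ∃ ρ0 : ℝ, 0 < ρ0 ∧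
  ∀ ρ, 0 < ρ → ρ ≤ ρ0 → ∃ C η0 : ℝ, 0 < C ∧ 0 < η0 ∧ ∀ η, 0 < η → η ≤ η0 →
  ∀ (P2 : PType) (i k : ℤ → ℤ) (φ : ℕ → ℕ) (x2 y2 : ℤ → ℝ),
    Refi P P2 i k φ → StrictMono x2 → StrictMono y2 → x = x2 ∘ i → y = y2 ∘ k →
    MeshLe P2.Q x2 y2 η →
    ∀ (R : ℕ → ℝ) (X Y : ℕ → ℤ → ℤ), App x2 y2 R X Y → ∀ᶠ j in atTop,
      Pr (EL P2 (X j) (Y j)) (GG P2 (X j) (Y j) (φ n1) (s.image φ) (Kb P2 x2 y2 ρ)) ≤
        C * η ^ c * pz (R j) ^ (s.card + 1)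

end Pool.Agent.H44.Q1
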