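import Mathlib
import Pool.Agent.Q1.M4.Data

set_option autoImplicit false
open Set Filter Topology

/-! Assembly of step C2 (k-point functions converge): two abstract lemmas. -/

namespace Pool.Agent.H44.Q1

open Pool.Agent.Q1.M4

/-- A real sequence which is for every `ε` eventually `ε`-close to a convergent sequence
converges. -/
theorem tendsto_of_approx {a : ℕ → ℝ}
    (h : ∀ ε > 0, ∃ (u : ℕ → ℝ) (L : ℝ), Tendsto u atTop (𝓝 L) ∧ ∀ᶠ j in atTop, |a j - u j| ≤ ε) :
    ∃ g, Tendsto a atTop (𝓝 g) := by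
  apply cauchySeq_tendsto_of_complete
  rw [Metric.cauchySeq_iff]
  intro ε hε
  obtain ⟨u, L, hu, ha⟩ := h (ε / 8) (by positivity)
  have hu' := (Metric.tendsto_atTop.1 hu) (ε / 8) (by positivity)
  obtain ⟨N1, h1⟩ := hu'
  obtain ⟨N2, h2⟩ := eventually_atTop.1 ha
  refine ⟨max N1 N2, fun m hm n hn => ?_⟩
  have e1 := h1 m ((le_max_left _ _).trans hm)
  have e2 := h1 n ((le_max_left _ _).trans hn)
  have e3 := h2 m ((le_max_right _ _).trans hm)
  have e4 := h2 n ((le_max_right _ _).trans hn)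
  rw [Real.dist_eq] at e1 e2 ⊢
  rw [abs_lt] at e1 e2 ⊢
  rw [abs_le] at e3 e4
  constructor <;> linarith [e1.1, e1.2, e2.1, e2.2, e3.1, e3.2, e4.1, e4.2]

/-- Two approximating sequences interleaved. -/
def inter {α : Type*} (a b : ℕ → α) (j : ℕ) : α := if j % 2 = 0 then a (j / 2) else b (j / 2)

lemma inter_even {α : Type*} (a b : ℕ → α) (j : ℕ) : inter a b (2 * j) = a j := by
  unfold inter
  rw [if_pos (by omega)]
  congr 1
  omega

lemma inter_odd {α : Type*} (a b : ℕ → α) (j : ℕ) : inter a b (2 * j + 1) = b j := by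
  unfold inter
  rw [if_neg (by omega)]
  congr 1
  omega

lemma tendsto_half : Tendsto (fun j : ℕ => j / 2) atTop atTop := by
  apply tendsto_atTop_atTop.2
  intro b
  exact ⟨2 * b, fun a ha => by omega⟩

lemma tendsto_inter {α : Type*} {l : Filter α} {a b : ℕ → α} (ha : Tendsto a atTop l)
    (hb : Tendsto b atTop l) : Tendsto (inter a b) atTop l := by
  intro s hs
  have h1 := tendsto_half (ha hs)
  have h2 := tendsto_half (hb hs)
  simp only [mem_map] at h1 h2 ⊢
  filter_upwards [h1, h2] with j hj1 hj2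
  show inter a b j ∈ s
  unfold inter
  split_ifs
  · exact hj1
  · exact hj2

lemma Approx.inter {x y : ℤ → ℝ} {R R' : ℕ → ℝ} {X Y X' Y' : ℕ → ℤ → ℤ}
    (h : Approx x y R X Y) (h' : Approx x y R' X' Y') :
    Approx x y (inter R R') (inter X X') (inter Y Y') := by
  refine ⟨tendsto_inter h.R_top h'.R_top, fun i => ?_, fun k => ?_⟩
  · have := tendsto_inter (h.X_lim i) (h'.X_lim i)
    refine this.congr fun j => ?_
    unfold H44.Q1.inter
    split_ifs <;> rfl
  · have := tendsto_inter (h.Y_lim k) (h'.Y_lim k)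
    refine this.congr fun j => ?_
    unfold H44.Q1.inter
    split_ifs <;> rfl

/-- If a function of `(R, X, Y)` converges along every approximating sequence then the limit does
not depend on the sequence. -/
theorem common_limit {x y : ℤ → ℝ} (f : ℝ → (ℤ → ℤ) → (ℤ → ℤ) → ℝ)
    (h : ∀ (R : ℕ → ℝ) (X Y : ℕ → ℤ → ℤ), Approx x y R X Y →
      ∃ g, Tendsto (fun j => f (R j) (X j) (Y j)) atTop (𝓝 g)) :
    ∃ g, ∀ (R : ℕ → ℝ) (X Y : ℕ → ℤ → ℤ), Approx x y R X Y →
      Tendsto (fun j => f (R j) (X j) (Y j)) atTop (𝓝 g) := by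
  by_cases hex : ∃ (R : ℕ → ℝ) (X Y : ℕ → ℤ → ℤ), Approx x y R X Y
  · obtain ⟨R, X, Y, hA⟩ := hex
    obtain ⟨g, hg⟩ := h R X Y hA
    refine ⟨g, fun R' X' Y' hA' => ?_⟩
    obtain ⟨g', hg'⟩ := h _ _ _ (Approx.inter hA hA')
    have t1 : Tendsto (fun j : ℕ => 2 * j) atTop atTop :=
      tendsto_atTop_atTop.2 fun b => ⟨b, fun a ha => by omega⟩
    have t2 : Tendsto (fun j : ℕ => 2 * j + 1) atTop atTop :=
      tendsto_atTop_atTop.2 fun b => ⟨b, fun a ha => by omega⟩
    have e1 := hg'.comp t1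
    have e2 := hg'.comp t2
    simp only [Function.comp_def, inter_even] at e1
    simp only [Function.comp_def, inter_odd] at e2
    have := tendsto_nhds_unique hg e1
    rw [this]
    exact e2
  · exact ⟨0, fun R X Y hA => absurd ⟨R, X, Y, hA⟩ hex⟩

end Pool.Agent.H44.Q1
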