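import Mathlib
import Pool.Agent.H44.Q1.C2
import Pool.Agent.H44.Q1.C2a
import Pool.Agent.H52.Q1.SideEv
import Pool.Agent.H49.Q1.NHP

set_option autoImplicit false
open Set Filter Topology

/-! Assembly of step C2: the pieces imply the convergence of the k-point functions. -/

namespace Pool.Agent.H44.Q1

open Pool.Agent.H75.Perc Pool.Agent.H75.Four Pool.Agent.H49.Q1 Pool.Agent.Q1.M4 Pool.Agent.Q1.M5

/-! ### Refinements -/

section
variable {P P2 : PType} {i k : ℤ → ℤ} {φ : ℕ → ℕ}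

lemma Refi.flat (h : Refi P P2 i k φ) {n : ℕ} (hn : FlatV P n) : FlatV P2 (φ n) := by
  obtain ⟨h1, h2, h3⟩ := hn
  have e1 : 0 < φ n := by rw [← h.zero]; exact h.hφ h1
  refine ⟨e1, by rw [← h.m]; exact h.hφ h2, ?_⟩
  have e2 : φ (n - 1) < φ n := h.hφ (by omega)
  have e3 : φ n < φ (n + 1) := h.hφ (by omega)
  have e4 := h.sdir (n - 1) (φ n - 1) (by omega) (by
    rw [show n - 1 + 1 = n by omega]; omega)
  have e5 := h.sdir n (φ n) le_rfl e3
  rw [e4, e5, h3]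

lemma Refi.marks (h : Refi P P2 i k φ) {n1 : ℕ} {s : Finset ℕ} (hm : Marks P n1 s) :
    Marks P2 (φ n1) (s.image φ) := by
  refine ⟨h.flat hm.1, fun n hn => ?_⟩
  obtain ⟨m, hm', rfl⟩ := Finset.mem_image.1 hn
  exact ⟨h.flat (hm.2 m hm').1, h.hφ (hm.2 m hm').2⟩

lemma Refi.tri (h : Refi P P2 i k φ) : Tri P2.Q := by
  intro a b ha
  rw [h.Q, h.Q]
  have h3 := h.hi3
  constructor
  · rintro ⟨c, hc, ⟨h1, h2⟩, h4⟩
    have := h3 c hc c.1 (by rw [sub_self]; norm_num)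
    have := h3 c hc (c.1 + 1) (by rw [add_sub_cancel_left]; norm_num)
    exact ⟨c, hc, ⟨by simp only at h1 ⊢; omega, by simp only at h2 ⊢; omega⟩, h4⟩
  · rintro ⟨c, hc, ⟨h1, h2⟩, h4⟩
    have := h3 c hc c.1 (by rw [sub_self]; norm_num)
    have := h3 c hc (c.1 + 1) (by rw [add_sub_cancel_left]; norm_num)
    exact ⟨c, hc, ⟨by simp only at h1 ⊢; omega, by simp only at h2 ⊢; omega⟩, h4⟩

lemma Refi.lv (h : Refi P P2 i k φ) (X Y : ℤ → ℤ) (n : ℕ) :
    lv P2 X Y (φ n) = lv P (X ∘ i) (Y ∘ k) n := by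
  unfold Pool.Agent.Q1.M5.lv lpt
  rw [h.vert]
  rfl

lemma Refi.CT (h : Refi P P2 i k φ) {X Y : ℤ → ℤ} (hX : StrictMono X) (hY : StrictMono Y)
    (v : ℤ × ℤ) (ω : Finset (ℤ × ℤ)) : CT P2 X Y v ω ↔ CT P (X ∘ i) (Y ∘ k) v ω := by
  unfold Pool.Agent.Q1.M5.CT CJ
  rw [h.WL X Y hX hY]
  constructor
  · rintro ⟨t, ht, h1⟩
    exact ⟨t, (h.TV X Y hX hY t).1 ht, h1⟩
  · rintro ⟨t, ht, h1⟩
    exact ⟨t, (h.TV X Y hX hY t).2 ht, h1⟩

lemma Refi.kp (h : Refi P P2 i k φ) {X Y : ℤ → ℤ} (hX : StrictMono X) (hY : StrictMono Y)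
    (s : Finset ℕ) : kp P2 X Y (s.image φ) = kp P (X ∘ i) (Y ∘ k) s := by
  unfold H44.Q1.kp
  rw [h.EL X Y hX hY]
  refine Pr_congr fun ω _ => ?_
  simp only [Finset.mem_image, forall_exists_index, and_imp, forall_apply_eq_imp_iff₂]
  refine forall_congr' fun n => forall_congr' fun _ => ?_
  rw [h.CT hX hY, h.lv]

end

/-! ### Gaps -/

lemma gap_ev {x y : ℤ → ℝ} (hx : StrictMono x) (hy : StrictMono y) (Q : Finset Cell) (g : ℤ)
    {R : ℕ → ℝ} {X Y : ℕ → ℤ → ℤ} (hA : App x y R X Y) : ∀ᶠ j in atTop, Gap Q (X j) (Y j) g := by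
  have hX : ∀ a : ℤ, ∀ᶠ j in atTop, X j a + g ≤ X j (a + 1) := by
    intro a
    have h1 : 0 < x (a + 1) - x a := sub_pos.2 (hx (by omega))
    have h2 := H52.Q1.gapX_ev hA.app (i := a) (c := (x (a + 1) - x a) / 2) (by linarith)
    have h3 : Tendsto (fun j => (x (a + 1) - x a) / 2 * R j) atTop atTop :=
      hA.app.R_top.const_mul_atTop (by linarith)
    filter_upwards [h2, h3.eventually_ge_atTop (g : ℝ)] with j h4 h5
    have : (g : ℝ) < X j (a + 1) - X j a := lt_of_le_of_lt h5 h4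
    have : g < X j (a + 1) - X j a := by exact_mod_cast this
    omega
  have hY : ∀ a : ℤ, ∀ᶠ j in atTop, Y j a + g ≤ Y j (a + 1) := by
    intro a
    have h1 : 0 < y (a + 1) - y a := sub_pos.2 (hy (by omega))
    have h2 := H52.Q1.gapY_ev hA.app (i := a) (c := (y (a + 1) - y a) / 2) (by linarith)
    have h3 : Tendsto (fun j => (y (a + 1) - y a) / 2 * R j) atTop atTop :=
      hA.app.R_top.const_mul_atTop (by linarith)
    filter_upwards [h2, h3.eventually_ge_atTop (g : ℝ)] with j h4 h5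
    have : (g : ℝ) < Y j (a + 1) - Y j a := lt_of_le_of_lt h5 h4
    have : g < Y j (a + 1) - Y j a := by exact_mod_cast this
    omega
  have key : ∀ᶠ j in atTop, ∀ c ∈ Q, ∀ a ∈ Finset.Icc (-2 : ℤ) 2,
      X j (c.1 + a) + g ≤ X j (c.1 + a + 1) ∧ Y j (c.2 + a) + g ≤ Y j (c.2 + a + 1) := by
    rw [Finset.eventually_all]
    intro c _
    rw [Finset.eventually_all]
    intro a _
    filter_upwards [hX (c.1 + a), hY (c.2 + a)] with j h1 h2
    exact ⟨h1, h2⟩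
  filter_upwards [key, hA.mono] with j h1 h2
  refine ⟨h2.1, h2.2, fun c hc d hd1 hd2 => ?_⟩
  rw [abs_le] at hd1 hd2
  have h3 := (h1 c hc (d.1 - c.1) (Finset.mem_Icc.2 ⟨by omega, by omega⟩)).1
  have h4 := (h1 c hc (d.2 - c.2) (Finset.mem_Icc.2 ⟨by omega, by omega⟩)).2
  rw [show c.1 + (d.1 - c.1) = d.1 by ring] at h3
  rw [show c.2 + (d.2 - c.2) = d.2 by ring] at h4
  exact ⟨h3, h4⟩

/-! ### The limit does not depend on the sequence -/

lemma App.inter {x y : ℤ → ℝ} {R R' : ℕ → ℝ} {X Y X' Y' : ℕ → ℤ → ℤ}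
    (h : App x y R X Y) (h' : App x y R' X' Y') :
    App x y (inter R R') (inter X X') (inter Y Y') := by
  refine ⟨Approx.inter h.app h'.app, ?_⟩
  have h1 := tendsto_half.eventually h.mono
  have h2 := tendsto_half.eventually h'.mono
  filter_upwards [h1, h2] with j h3 h4
  unfold H44.Q1.inter
  split_ifs
  · exact h3
  · exact h4

theorem common_limit_app {x y : ℤ → ℝ} (f : ℝ → (ℤ → ℤ) → (ℤ → ℤ) → ℝ)
    (h : ∀ (R : ℕ → ℝ) (X Y : ℕ → ℤ → ℤ), App x y R X Y →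
      ∃ g, Tendsto (fun j => f (R j) (X j) (Y j)) atTop (𝓝 g)) :
    ∃ g, ∀ (R : ℕ → ℝ) (X Y : ℕ → ℤ → ℤ), App x y R X Y →
      Tendsto (fun j => f (R j) (X j) (Y j)) atTop (𝓝 g) := by
  by_cases hex : ∃ (R : ℕ → ℝ) (X Y : ℕ → ℤ → ℤ), App x y R X Y
  · obtain ⟨R, X, Y, hA⟩ := hex
    obtain ⟨g, hg⟩ := h R X Y hA
    refine ⟨g, fun R' X' Y' hA' => ?_⟩
    obtain ⟨g', hg'⟩ := h _ _ _ (App.inter hA hA')
    have t1 : Tendsto (fun j : ℕ => 2 * j) atTop atTop :=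
      tendsto_atTop_atTop.2 fun b => ⟨b, fun a ha => by omega⟩
    have t2 : Tendsto (fun j : ℕ => 2 * j + 1) atTop atTop :=
      tendsto_atTop_atTop.2 fun b => ⟨b, fun a ha => by omega⟩
    have e1 := hg'.comp t1
    have e2 := hg'.comp t2
    simp only [Function.comp_def, inter_even] at e1
    simp only [Function.comp_def, inter_odd] at e2
    have := tendsto_nhds_unique hg e1
    rw [this]
    exact e2
  · exact ⟨0, fun R X Y hA => absurd ⟨R, X, Y, hA⟩ hex⟩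

/-! ### The step -/

/-- One induction step. -/
theorem step {pz : ℝ → ℝ} (hpz : StPz pz) {g0 g1 : ℤ} (hREF : StREF) (hKB : StKB)
    (hUB : StUB g0) (hLB1 : StLB1 g1) (hU5 : StU5 pz) (hNH : StNH pz) (hLB2 : StLB2 pz)
    {P : PType} {x y : ℤ → ℝ} (hx : StrictMono x) (hy : StrictMono y) {n1 : ℕ} {s : Finset ℕ}
    (hM : Marks P n1 s) (hI : ∀ k ≤ s.card, StC2k pz k)
    {R : ℕ → ℝ} {X Y : ℕ → ℤ → ℤ} (hA : App x y R X Y) :
    ∃ g, Tendsto (fun j => kp P (X j) (Y j) (insert n1 s) / pz (R j) ^ (s.card + 1)) atTop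
      (𝓝 g) := by
  apply tendsto_of_approx
  intro ε hε
  obtain ⟨C1, ρ1, hC1, hρ1, hNH'⟩ := hNH P x y hx hy n1 s hM
  obtain ⟨ρ2, hρ2, hKB'⟩ := hKB P x y hx hy n1 s hM
  obtain ⟨c, hc, hLB2'⟩ := hLB2
  obtain ⟨ρ3, hρ3, hLB2''⟩ := hLB2' P x y hx hy n1 s hM
  -- choice of `ρ`
  obtain ⟨ρ, hρ, hρa, hρb, hρc, hρd⟩ : ∃ ρ : ℝ, 0 < ρ ∧ ρ ≤ ρ1 ∧ ρ ≤ ρ2 ∧ ρ ≤ ρ3 ∧
      s.card * (C1 * ρ ^ (1 / 3 : ℝ)) ≤ ε := by
    set t : ℝ := ε / (s.card * C1 + 1) with ht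
    have ht0 : 0 < t := by positivity
    refine ⟨min (min ρ1 ρ2) (min ρ3 (t ^ (3 : ℝ))), by positivity, ?_, ?_, ?_, ?_⟩
    · exact (min_le_left _ _).trans (min_le_left _ _)
    · exact (min_le_left _ _).trans (min_le_right _ _)
    · exact (min_le_right _ _).trans (min_le_left _ _)
    · have h1 : (min (min ρ1 ρ2) (min ρ3 (t ^ (3 : ℝ)))) ^ (1 / 3 : ℝ) ≤ t := by
        calc (min (min ρ1 ρ2) (min ρ3 (t ^ (3 : ℝ)))) ^ (1 / 3 : ℝ) ≤ (t ^ (3 : ℝ)) ^ (1 / 3 : ℝ) :=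
              Real.rpow_le_rpow (by positivity)
                ((min_le_right _ _).trans (min_le_right _ _)) (by norm_num)
          _ = t := by
            rw [← Real.rpow_mul ht0.le]; norm_num
      calc (s.card : ℝ) * (C1 * (min (min ρ1 ρ2) (min ρ3 (t ^ (3 : ℝ)))) ^ (1 / 3 : ℝ))
          ≤ s.card * (C1 * t) := by gcongr
        _ = (s.card * C1) * t := by ring
        _ ≤ (s.card * C1 + 1) * t := by gcongr; linarith
        _ = ε := by rw [ht]; field_simp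
  obtain ⟨η1, hη1, hKB''⟩ := hKB' ρ hρ hρb
  obtain ⟨C2, η2, hC2, hη2, hLB3⟩ := hLB2'' ρ hρ hρc
  -- choice of `η`
  obtain ⟨η, hη, hηa, hηb, hηc⟩ : ∃ η : ℝ, 0 < η ∧ η ≤ η1 ∧ η ≤ η2 ∧ C2 * η ^ c ≤ ε := by
    set t : ℝ := (ε / C2) ^ (1 / c) with ht
    have ht0 : 0 < t := by positivity
    refine ⟨min (min η1 η2) t, by positivity, ?_, ?_, ?_⟩
    · exact (min_le_left _ _).trans (min_le_left _ _)
    · exact (min_le_left _ _).trans (min_le_right _ _)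
    · have h1 : (min (min η1 η2) t) ^ c ≤ ε / C2 := by
        calc (min (min η1 η2) t) ^ c ≤ t ^ c :=
              Real.rpow_le_rpow (by positivity) (min_le_right _ _) hc.le
          _ = ε / C2 := by
            rw [ht, ← Real.rpow_mul (by positivity), one_div, inv_mul_cancel₀ hc.ne', Real.rpow_one]
      calc C2 * (min (min η1 η2) t) ^ c ≤ C2 * (ε / C2) := by gcongr
        _ = ε := by field_simp
  obtain ⟨P2, i, k, φ, x2, y2, hR2, hx2, hy2, rfl, rfl, hmesh, happ⟩ := hREF P x y hx hy η hη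
  obtain ⟨X2, Y2, hA2, heq⟩ := happ R X Y hA
  obtain ⟨hK1, hK2⟩ := hKB'' P2 i k φ x2 y2 hR2 hx2 hy2 rfl rfl
    (fun d hd => ⟨(hmesh d hd).1.trans hηa, (hmesh d hd).2.trans hηa⟩)
  have hcard : (s.image φ).card = s.card := Finset.card_image_of_injective _ hR2.hφ.injective
  have hM2 := hR2.marks hM
  have hKs : ∀ l ∈ s.image φ, Kb P2 x2 y2 ρ l ∈ Hs P2 (φ n1) ∧
      (P2.side (l - 1)).1 ∈ Kb P2 x2 y2 ρ l ∧ (P2.side l).1 ∈ Kb P2 x2 y2 ρ l := by
    intro l hl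
    obtain ⟨m, hm, rfl⟩ := Finset.mem_image.1 hl
    exact hK1 m hm
  obtain ⟨g, hg⟩ := hU5 P2 x2 y2 hx2 hy2 hR2.tri (φ n1) (s.image φ) (Kb P2 x2 y2 ρ) hM2 hKs
    (by rw [hcard]; exact hI)
  have hg' := hg R X2 Y2 hA2
  rw [hcard] at hg'
  refine ⟨_, g, hg', ?_⟩
  filter_upwards [heq, hA2.mono, gap_ev hx2 hy2 P2.Q g0 hA2, gap_ev hx2 hy2 P2.Q g1 hA2,
    hNH' ρ hρ hρa R X Y hA, hK2 R X2 Y2 hA2,
    hLB3 η hη hηb P2 i k φ x2 y2 hR2 hx2 hy2 rfl rfl hmesh R X2 Y2 hA2] with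
    j hj1 hj2 hj3 hj4 hj5 hj6 hj7
  have hp : 0 < pz (R j) ^ (s.card + 1) := pow_pos (hpz.1 _) _
  have hkp : kp P (X j) (Y j) (insert n1 s) = kp P2 (X2 j) (Y2 j) (insert (φ n1) (s.image φ)) := by
    rw [← Finset.image_insert, hR2.kp hj2.1 hj2.2, hj1.1, hj1.2]
  have hub := hUB P2 (X2 j) (Y2 j) hR2.tri hj3 (φ n1) (s.image φ) (Kb P2 x2 y2 ρ) hM2
    (fun l hl => (hKs l hl).1)
  have hlb := hLB1 P2 (X2 j) (Y2 j) hR2.tri hj4 (φ n1) (s.image φ) (Kb P2 x2 y2 ρ) hM2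
    (fun l hl => (hKs l hl).1)
  -- the NH terms
  have hsum : ∑ l ∈ s.image φ, Pr (EL P2 (X2 j) (Y2 j))
      (fun ω => (∀ n ∈ insert (φ n1) (s.image φ), CT P2 (X2 j) (Y2 j) (lv P2 (X2 j) (Y2 j) n) ω) ∧
        ¬ XA P2 (X2 j) (Y2 j) (φ n1) (Kb P2 x2 y2 ρ l) ω) ≤
      s.card * (C1 * ρ ^ (1 / 3 : ℝ) * pz (R j) ^ (s.card + 1)) := by
    rw [← hcard, ← nsmul_eq_mul, hcard]
    have : ∀ l ∈ s.image φ, Pr (EL P2 (X2 j) (Y2 j))
      (fun ω => (∀ n ∈ insert (φ n1) (s.image φ), CT P2 (X2 j) (Y2 j) (lv P2 (X2 j) (Y2 j) n) ω) ∧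
        ¬ XA P2 (X2 j) (Y2 j) (φ n1) (Kb P2 x2 y2 ρ l) ω) ≤
      C1 * ρ ^ (1 / 3 : ℝ) * pz (R j) ^ (s.card + 1) := by
      intro l hl
      obtain ⟨m, hm, rfl⟩ := Finset.mem_image.1 hl
      have h1 := hj5 m hm (LA P2 (X2 j) (Y2 j) (Kb P2 x2 y2 ρ (φ m))) (by
        rw [hj1.1, hj1.2, ← hR2.EL _ _ hj2.1 hj2.2]
        exact Finset.sdiff_subset) (by
        have := hj6 m hm
        rwa [hR2.lv, ← hj1.1, ← hj1.2] at this)
      refine le_trans (le_of_eq ?_) h1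
      rw [hR2.EL _ _ hj2.1 hj2.2, ← hj1.1, ← hj1.2]
      refine Pr_congr fun ω _ => ?_
      rw [← Finset.image_insert]
      simp only [Finset.mem_image, forall_exists_index, and_imp, forall_apply_eq_imp_iff₂]
      refine and_congr (forall_congr' fun n => forall_congr' fun _ => ?_) (not_congr ?_)
      · rw [hR2.CT hj2.1 hj2.2, hR2.lv, ← hj1.1, ← hj1.2]
      · unfold XA
        rw [hR2.CT hj2.1 hj2.2, hR2.lv, ← hj1.1, ← hj1.2]
    have h2 := Finset.sum_le_card_nsmul _ _ _ this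
    rwa [hcard] at h2
  rw [hkp, ← sub_div, abs_div, abs_of_pos hp, div_le_iff₀ hp, abs_le]
  have hA1 : s.card * (C1 * ρ ^ (1 / 3 : ℝ) * pz (R j) ^ (s.card + 1)) ≤
      ε * pz (R j) ^ (s.card + 1) := by
    rw [← mul_assoc]
    exact mul_le_mul_of_nonneg_right hρd hp.le
  have hA3 : C2 * η ^ c * pz (R j) ^ (s.card + 1) ≤ ε * pz (R j) ^ (s.card + 1) :=
    mul_le_mul_of_nonneg_right hηc hp.le
  constructor
  · linarith
  · linarith

/-- **C2 from its pieces.** -/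
theorem c2_of {pz : ℝ → ℝ} (hpz : StPz pz) (hB2 : StB2 pz) {g0 g1 : ℤ} (hREF : StREF) (hKB : StKB)
    (hUB : StUB g0) (hLB1 : StLB1 g1) (hU5 : StU5 pz) (hNH : StNH pz) (hLB2 : StLB2 pz) :
    StC2 pz := by
  have main : ∀ k, StC2k pz k := by
    intro k
    induction k using Nat.strong_induction_on with
    | _ k ih =>
      intro P x y hx hy s hs hk
      rcases Nat.lt_trichotomy k 1 with hk1 | hk1 | hk1
      · have hk0 : k = 0 := by omega
        subst hk0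
        rw [Finset.card_eq_zero] at hk
        subst hk
        refine ⟨1, fun R X Y _ => ?_⟩
        have : (fun j => kp P (X j) (Y j) ∅ / pz (R j) ^ 0) = fun _ => (1 : ℝ) := by
          funext j
          unfold kp
          simp [Pr_true]
        rw [this]
        exact tendsto_const_nhds
      · subst hk1
        obtain ⟨n, rfl⟩ := Finset.card_eq_one.1 hk
        obtain ⟨g, -, hg⟩ := hB2 P x y hx hy n (hs n (Finset.mem_singleton_self n))
        refine ⟨g, fun R X Y hA => ?_⟩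
        refine (hg R X Y hA).congr fun j => ?_
        unfold kp Pool.Agent.Q1.M5.hh
        simp only [Finset.mem_singleton, forall_eq, pow_one]
      · apply common_limit_app (fun r X Y => kp P X Y s / pz r ^ k)
        intro R X Y hA
        have hne : s.Nonempty := by
          rw [← Finset.card_pos, hk]; omega
        set n1 := s.min' hne with hn1
        have hmem : n1 ∈ s := Finset.min'_mem s hne
        have hcard : (s.erase n1).card = k - 1 := by rw [Finset.card_erase_of_mem hmem, hk]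
        have hM : Marks P n1 (s.erase n1) := by
          refine ⟨hs n1 hmem, fun n hn => ?_⟩
          rw [Finset.mem_erase] at hn
          refine ⟨hs n hn.2, lt_of_le_of_ne (Finset.min'_le s n hn.2) (Ne.symm hn.1)⟩
        obtain ⟨g, hg⟩ := step hpz hREF hKB hUB hLB1 hU5 hNH hLB2 hx hy hM
          (fun k' hk' => ih k' (by omega)) hA
        rw [Finset.insert_erase hmem, hcard, show k - 1 + 1 = k by omega] at hg
        exact ⟨g, hg⟩
  intro P x y hx hy s hs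
  obtain ⟨g, hg⟩ := main s.card P x y hx hy s hs rfl
  exact ⟨g, hg⟩

end Pool.Agent.H44.Q1
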