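import Mathlib
import Pool.Agent.H44.Q1.C2Asm
import Pool.Agent.H76.Q1.C2Lim
import Pool.Agent.H76.Q1.Moebius
import Pool.Agent.H78.Q1.RootId

set_option autoImplicit false
open Set Filter Topology

/-! Step C2, statement (C1): the normalised law of the maximal hull converges. -/

namespace Pool.Agent.H44.Q1

open Pool.Agent.H75.Perc hiding WL hh tau
open Pool.Agent.H75.Four Pool.Agent.H49.Q1 Pool.Agent.Q1.M4 Pool.Agent.Q1.M5
open Pool.Agent.H76.Q1 (StLAT HullHyp inRect_lv Tri.g3 XA_empty)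

/-- the normalised probability of avoiding a hull converges -/
lemma avoid_lim {pz : ℝ → ℝ} (hB2 : StB2 pz) {P : PType} {x y : ℤ → ℝ} (hx : StrictMono x)
    (hy : StrictMono y) (hT : Tri P.Q) {n1 : ℕ} (hF : FlatV P n1) {A : Finset Cell}
    (hA : Hull P n1 A) {R : ℕ → ℝ} {X Y : ℕ → ℤ → ℤ} (hApp : App x y R X Y) :
    ∃ g, Tendsto (fun j => Pr (EL P (X j) (Y j)) (XA P (X j) (Y j) n1 A) / pz (R j)) atTop
      (𝓝 g) := by
  have h3 := Tri.g3 hT
  by_cases hw : ∃ t, P.m ≤ t ∧ t < P.N ∧ (P.side t).1 ∈ H78.Q1.rootC P n1 A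
  · obtain ⟨t, ht1, ht2, ht3⟩ := hw
    obtain ⟨P', t0, e1, e2, e3, -, e5, e6, e7, e8, e9⟩ :=
      hA.exists_type h3 hF.1 hF.2.1 ht1 ht2 ht3
    have hF' : FlatV P' n1 := by
      refine ⟨hF.1, e6, ?_⟩
      rw [e5 n1 le_rfl, e5 (n1 - 1) (by omega)]
      exact hF.2.2
    obtain ⟨g, -, hg⟩ := hB2 P' x y hx hy n1 hF'
    refine ⟨g, ?_⟩
    refine (hg R X Y hApp).congr' ?_
    filter_upwards [hApp.mono] with j hj
    have hlv : Pool.Agent.Q1.M5.lv P' (X j) (Y j) n1 = Pool.Agent.Q1.M5.lv P (X j) (Y j) n1 := by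
      unfold Pool.Agent.Q1.M5.lv PType.vert
      rw [e5 n1 le_rfl]
    have := hA.prob h3 hj.1 hj.2 (inRect_lv hj.1 hj.2 n1) e3 e1 e2 e7 e8 e9
    rw [hlv, ← this]
    rfl
  · refine ⟨0, ?_⟩
    refine tendsto_const_nhds.congr' ?_
    filter_upwards [hApp.mono] with j hj
    have : Pr (EL P (X j) (Y j)) (XA P (X j) (Y j) n1 A) = 0 := by
      have h1 : Pr (EL P (X j) (Y j)) (XA P (X j) (Y j) n1 A) =
          Pr (EL P (X j) (Y j)) (fun _ => False) := by
        refine Pr_congr fun ω hω => ⟨fun h => ?_, fun h => h.elim⟩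
        exact hw (hA.wired_of_avoid h3 hj.1 hj.2 (inRect_lv hj.1 hj.2 n1) hω h)
      rw [h1]
      classical
      rw [Pr_eq, Finset.filter_false, Finset.card_empty, Nat.cast_zero, zero_div]
    rw [this, zero_div]

/-- **(C1)** -/
theorem stC1_of {pz : ℝ → ℝ} (hB2 : StB2 pz) {g0 : ℤ} (hLAT : StLAT g0) : StC1 pz := by
  classical
  intro P x y hx hy hT n1 hF A hA
  apply common_limit_app (fun r X Y => Pr (EL P X Y) (XH P X Y n1 A) / pz r)
  intro R X Y hApp
  have key := H76.Q1.moebius_tendsto (Hs P n1)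
    (fun j S => Pr (EL P (X j) (Y j)) (XH P (X j) (Y j) n1 S) / pz (R j))
    (fun j S => Pr (EL P (X j) (Y j)) (XA P (X j) (Y j) n1 S) / pz (R j)) ?_ ?_ A hA
  · exact key
  · filter_upwards [gap_ev hx hy P.Q g0 hApp] with j hj
    have hH := hLAT P (X j) (Y j) hT hj n1 hF
    intro S hS
    have h1 := H78.Q1.Pr_G_sum hH.fam hH.ev hS
    rw [h1, Finset.sum_div]
    refine Finset.sum_congr rfl fun B _ => ?_
    congr 1
    refine Pr_congr fun ω _ => ?_
    rw [XA_empty]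
    rfl
  · intro S hS
    have hS' : Hull P n1 S := by
      unfold Hs at hS
      exact (Finset.mem_filter.1 hS).2
    exact avoid_lim hB2 hx hy hT hF hS' hApp

end Pool.Agent.H44.Q1
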