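import Mathlib
import Pool.Agent.H44.Q1.C2Asm

set_option autoImplicit false
open Set Filter Topology

/-! Step C2, statement (KB): the tiles in a small box around a flat vertex form a hull. -/

namespace Pool.Agent.H44.Q1

open Pool.Agent.H75.Perc hiding WL hh tau
open Pool.Agent.H75.Four Pool.Agent.H49.Q1 Pool.Agent.Q1.M4 Pool.Agent.Q1.M5 Pool.Agent.H52.Q1
open Pool.Agent.H78.Q1 (tau Rch)

/-- The closed cell `c` contains the grid vertex `p`. -/
def CV (c : Cell) (p : ℤ × ℤ) : Prop := (p.1 = c.1 ∨ p.1 = c.1 + 1) ∧ (p.2 = c.2 ∨ p.2 = c.2 + 1)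

lemma cv_tail (s : Cell × ℤ) : CV s.1 (tail s) := by
  obtain ⟨⟨a, b⟩, k⟩ := s
  unfold CV tail
  simp only
  split_ifs <;> simp

lemma cv_head (s : Cell × ℤ) : CV s.1 (head s) := by
  obtain ⟨⟨a, b⟩, k⟩ := s
  unfold CV head tail
  simp only
  rcases dir_cases k with ⟨h, e⟩ | ⟨h, e⟩ | ⟨h, e⟩ | ⟨h, e⟩ <;> rw [e] <;> simp [h]

lemma vert_succ (P : PType) (n : ℕ) : P.vert (n + 1) = head (P.side n) := by
  unfold PType.vert
  rw [P.side_succ, head_eq_tail_next]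

lemma vert_N (P : PType) : P.vert P.N = P.vert 0 := by
  unfold PType.vert PType.side
  rw [P.period, Function.iterate_zero, id]
  unfold tail
  simp

/-! ### Tiles -/

lemma tau_row {c d : Cell} (h : tau d = tau c) : d.2 = c.2 := by
  unfold tau at h
  exact (Prod.ext_iff.1 h).2

lemma tau_col {c d : Cell} (h : tau d = tau c) :
    (d.1 - 1 - c.2 % 2) / 3 = (c.1 - 1 - c.2 % 2) / 3 := by
  have h2 := tau_row h
  unfold tau at h
  have h1 := (Prod.ext_iff.1 h).1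
  simp only at h1
  rwa [h2] at h1

lemma tau_of {c d : Cell} (h2 : d.2 = c.2) (h1 : (d.1 - 1 - c.2 % 2) / 3 = (c.1 - 1 - c.2 % 2) / 3) :
    tau d = tau c := by
  unfold tau
  rw [h2, h1]

/-- A flat vertex is visited only once. -/
lemma flat_inj {P : PType} {n n' : ℕ} (h : FlatV P n) (l2 : n' < P.N)
    (hv : P.vert n = P.vert n') : n = n' := by
  obtain ⟨⟨a, b⟩, hab⟩ : ∃ v : ℤ × ℤ, P.vert n = v := ⟨_, rfl⟩
  have hab' : P.vert n' = (a, b) := by rw [← hv, hab]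
  have hmN := P.hmN
  have l1 : n < P.N := by have := h.2.1; omega
  rcases flatV_cells h hab with ⟨⟨k1, e1, -⟩, q1, q2, q3, q4⟩ |
    ⟨⟨k1, e1, -⟩, q1, q2, q3, q4⟩ | ⟨⟨k1, e1, -⟩, q1, q2, q3, q4⟩ |
    ⟨⟨k1, e1, -⟩, q1, q2, q3, q4⟩ <;>
  rcases side_cells (P.isSide n') hab' with ⟨k2, e2, r1, r2⟩ | ⟨k2, e2, r1, r2⟩ |
    ⟨k2, e2, r1, r2⟩ | ⟨k2, e2, r1, r2⟩ <;>
  first
  | exact P.inj n l1 n' l2 (e1.trans e2.symm) (by
      have : ((P.side n).2 - (P.side n').2) % 4 = 0 := by omega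
      exact this)
  | exact absurd r1 q3
  | exact absurd r1 q4
  | exact absurd q1 r2

/-! ### Path inside the box -/

section
variable {P2 : PType} {x2 y2 : ℤ → ℝ} {ρ : ℝ} {n : ℕ}

lemma mem_Kb {c : Cell} : c ∈ Kb P2 x2 y2 ρ n ↔
    c ∈ P2.Q ∧ ∀ d ∈ P2.Q, tau d = tau c → InBox x2 y2 ρ (P2.vert n) d := by
  classical
  unfold Kb
  rw [Finset.mem_filter]

/-- The cells of the box form a rectangle `[A0, A1) × [B0, B1)` around the vertex `(ia, kb)`. -/
structure Rec (P2 : PType) (x2 y2 : ℤ → ℝ) (ρ : ℝ) (ia kb A0 A1 B0 B1 t1 t2 : ℤ) : Prop where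
  h1 : (t1 = ia ∨ t1 = ia - 1) ∧ A0 ≤ t1 ∧ t1 < A1
  h2 : (t2 = kb ∨ t2 = kb - 1) ∧ B0 ≤ t2 ∧ t2 < B1
  r1 : ∀ d : Cell, A0 ≤ d.1 → d.1 < A1 → B0 ≤ d.2 → d.2 < B1 → d ∈ P2.Q
  r2 : ∀ d ∈ P2.Q, InBox x2 y2 ρ (ia, kb) d → (A0 ≤ d.1 ∧ d.1 < A1) ∧ (B0 ≤ d.2 ∧ d.2 < B1)
  r3 : ∀ d ∈ P2.Q, ia - 3 ≤ d.1 → d.1 < ia + 3 → B0 ≤ d.2 → d.2 < B1 →
    (x2 ia - ρ ≤ x2 d.1 ∧ x2 (d.1 + 1) ≤ x2 ia + ρ)
  r4 : y2 kb - ρ ≤ y2 t2 ∧ y2 (t2 + 1) ≤ y2 kb + ρ

variable {ia kb A0 A1 B0 B1 t1 t2 : ℤ}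

/-- cells in the two middle columns whose row is in the box belong to the hull -/
lemma Rec.mid (h : Rec P2 x2 y2 ρ ia kb A0 A1 B0 B1 t1 t2) (h3 : ia % 3 = 0)
    (hv : P2.vert n = (ia, kb)) {c : Cell} (hc : c ∈ P2.Q) (h1 : c.1 = ia ∨ c.1 = ia - 1)
    (h2 : B0 ≤ c.2 ∧ c.2 < B1) (hy : y2 kb - ρ ≤ y2 c.2 ∧ y2 (c.2 + 1) ≤ y2 kb + ρ) :
    c ∈ Kb P2 x2 y2 ρ n := by
  rw [mem_Kb, hv]
  refine ⟨hc, fun d hd hdc => ?_⟩
  have e2 := tau_row hdc
  have e1 := tau_col hdc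
  refine ⟨h.r3 d hd (by omega) (by omega) (by omega) (by omega), ?_⟩
  rw [e2]
  exact hy

lemma Rec.path (h : Rec P2 x2 y2 ρ ia kb A0 A1 B0 B1 t1 t2) (hx : StrictMono x2)
    (hy : StrictMono y2) (h3 : ia % 3 = 0)
    (hv : P2.vert n = (ia, kb)) {c : Cell} (hc : c ∈ Kb P2 x2 y2 ρ n) :
    Rch (Kb P2 x2 y2 ρ n : Set Cell) c (t1, t2) := by
  obtain ⟨ht1, ht1a, ht1b⟩ := h.h1
  obtain ⟨ht2, ht2a, ht2b⟩ := h.h2
  have hc' := mem_Kb.1 hc
  have hcb := hc'.2 c hc'.1 rfl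
  rw [hv] at hc' hcb
  obtain ⟨⟨ca, cb⟩, cc, cd⟩ := h.r2 c hc'.1 hcb
  -- the box in the `x` direction at the middle column
  have hT := h.r3 (t1, c.2) (h.r1 _ ht1a ht1b cc cd) (by simp only; omega) (by simp only; omega)
    cc cd
  simp only at hT
  -- horizontal part
  have hor : ∀ u : ℤ, (c.1 ≤ u ∧ u ≤ t1) ∨ (t1 ≤ u ∧ u ≤ c.1) → (u, c.2) ∈ Kb P2 x2 y2 ρ n := by
    intro u hu
    rw [mem_Kb, hv]
    refine ⟨h.r1 _ (by simp only; omega) (by simp only; omega) cc cd, fun d hd hdu => ?_⟩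
    have e2 := tau_row hdu
    have e1 := tau_col hdu
    simp only at e1 e2
    have hyy : y2 kb - ρ ≤ y2 d.2 ∧ y2 (d.2 + 1) ≤ y2 kb + ρ := by rw [e2]; exact hcb.2
    rcases hu with hu | hu
    · by_cases g1 : d.1 < c.1
      · exact hc'.2 d hd (tau_of e2 (by omega))
      · by_cases g2 : d.1 ≤ t1
        · refine ⟨⟨?_, ?_⟩, hyy⟩
          · exact hcb.1.1.trans (hx.monotone (by omega))
          · exact (hx.monotone (by omega : d.1 + 1 ≤ t1 + 1)).trans hT.2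
        · refine ⟨h.r3 d hd (by omega) (by omega) (by omega) (by omega), hyy⟩
    · by_cases g1 : c.1 < d.1
      · exact hc'.2 d hd (tau_of e2 (by omega))
      · by_cases g2 : t1 ≤ d.1
        · refine ⟨⟨?_, ?_⟩, hyy⟩
          · exact hT.1.trans (hx.monotone g2)
          · exact (hx.monotone (by omega : d.1 + 1 ≤ c.1 + 1)).trans hcb.1.2
        · refine ⟨h.r3 d hd (by omega) (by omega) (by omega) (by omega), hyy⟩
  -- vertical part
  have ver : ∀ v : ℤ, (c.2 ≤ v ∧ v ≤ t2) ∨ (t2 ≤ v ∧ v ≤ c.2) → (t1, v) ∈ Kb P2 x2 y2 ρ n := by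
    intro v hvv
    refine h.mid h3 hv (h.r1 _ ht1a ht1b (by simp only; omega) (by simp only; omega)) ht1
      ⟨by simp only; omega, by simp only; omega⟩ ?_
    simp only
    rcases hvv with hvv | hvv
    · exact ⟨hcb.2.1.trans (hy.monotone hvv.1),
        (hy.monotone (by omega : v + 1 ≤ t2 + 1)).trans h.r4.2⟩
    · exact ⟨h.r4.1.trans (hy.monotone hvv.1),
        (hy.monotone (by omega : v + 1 ≤ c.2 + 1)).trans hcb.2.2⟩
  -- assemble
  have adjx : ∀ u v : ℤ, Adj4 (u, v) (u + 1, v) := by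
    intro u v
    exact ⟨0, by unfold dir; simp⟩
  have adjx' : ∀ u v : ℤ, Adj4 (u, v) (u - 1, v) := by
    intro u v
    exact ⟨2, by unfold dir; simp; ring⟩
  have adjy : ∀ u v : ℤ, Adj4 (u, v) (u, v + 1) := by
    intro u v
    exact ⟨1, by unfold dir; simp⟩
  have adjy' : ∀ u v : ℤ, Adj4 (u, v) (u, v - 1) := by
    intro u v
    exact ⟨3, by unfold dir; simp; ring⟩
  have p1 : Rch (Kb P2 x2 y2 ρ n : Set Cell) c (t1, c.2) := by
    rcases le_total c.1 t1 with hle | hle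
    · obtain ⟨m, hm⟩ := Int.eq_ofNat_of_zero_le (sub_nonneg.2 hle)
      have : ∀ q : ℕ, (q : ℤ) ≤ m → Rch (Kb P2 x2 y2 ρ n : Set Cell) c (c.1 + q, c.2) := by
        intro q
        induction q with
        | zero => intro _; rw [Nat.cast_zero, add_zero]; exact Relation.ReflTransGen.refl
        | succ q ih =>
          intro hq
          push_cast at hq
          refine Relation.ReflTransGen.tail (ih (by omega)) ⟨?_, hor _ (Or.inl ⟨by push_cast; omega,
            by push_cast; omega⟩)⟩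
          have := adjx (c.1 + q) c.2
          rw [add_assoc] at this
          push_cast
          exact this
      have h5 := this m le_rfl
      rwa [show c.1 + (m : ℤ) = t1 by omega] at h5
    · obtain ⟨m, hm⟩ := Int.eq_ofNat_of_zero_le (sub_nonneg.2 hle)
      have : ∀ q : ℕ, (q : ℤ) ≤ m → Rch (Kb P2 x2 y2 ρ n : Set Cell) c (c.1 - q, c.2) := by
        intro q
        induction q with
        | zero => intro _; rw [Nat.cast_zero, sub_zero]; exact Relation.ReflTransGen.refl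
        | succ q ih =>
          intro hq
          push_cast at hq
          refine Relation.ReflTransGen.tail (ih (by omega)) ⟨?_, hor _ (Or.inr ⟨by push_cast; omega,
            by push_cast; omega⟩)⟩
          have := adjx' (c.1 - q) c.2
          rw [sub_sub] at this
          push_cast
          exact this
      have h5 := this m le_rfl
      rwa [show c.1 - (m : ℤ) = t1 by omega] at h5
  refine p1.trans ?_
  rcases le_total c.2 t2 with hle | hle
  · obtain ⟨m, hm⟩ := Int.eq_ofNat_of_zero_le (sub_nonneg.2 hle)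
    have : ∀ q : ℕ, (q : ℤ) ≤ m → Rch (Kb P2 x2 y2 ρ n : Set Cell) (t1, c.2) (t1, c.2 + q) := by
      intro q
      induction q with
      | zero => intro _; rw [Nat.cast_zero, add_zero]; exact Relation.ReflTransGen.refl
      | succ q ih =>
        intro hq
        push_cast at hq
        refine Relation.ReflTransGen.tail (ih (by omega)) ⟨?_, ver _ (Or.inl ⟨by push_cast; omega,
          by push_cast; omega⟩)⟩
        have := adjy t1 (c.2 + q)
        rw [add_assoc] at this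
        push_cast
        exact this
    have h5 := this m le_rfl
    rwa [show c.2 + (m : ℤ) = t2 by omega] at h5
  · obtain ⟨m, hm⟩ := Int.eq_ofNat_of_zero_le (sub_nonneg.2 hle)
    have : ∀ q : ℕ, (q : ℤ) ≤ m → Rch (Kb P2 x2 y2 ρ n : Set Cell) (t1, c.2) (t1, c.2 - q) := by
      intro q
      induction q with
      | zero => intro _; rw [Nat.cast_zero, sub_zero]; exact Relation.ReflTransGen.refl
      | succ q ih =>
        intro hq
        push_cast at hq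
        refine Relation.ReflTransGen.tail (ih (by omega)) ⟨?_, ver _ (Or.inr ⟨by push_cast; omega,
          by push_cast; omega⟩)⟩
        have := adjy' t1 (c.2 - q)
        rw [sub_sub] at this
        push_cast
        exact this
    have h5 := this m le_rfl
    rwa [show c.2 - (m : ℤ) = t2 by omega] at h5

end

lemma mesh_sum {f : ℤ → ℝ} {η : ℝ} (hη : 0 ≤ η) {u w : ℤ}
    (h : ∀ v, u ≤ v → v < w → f (v + 1) - f v ≤ η) (h1 : u ≤ w) (h2 : w ≤ u + 3) :
    f w - f u ≤ 3 * η := by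
  have hc : w = u ∨ w = u + 1 ∨ w = u + 1 + 1 ∨ w = u + 1 + 1 + 1 := by omega
  rcases hc with rfl | rfl | rfl | rfl
  · linarith
  · have := h u le_rfl (by omega)
    linarith
  · have := h u le_rfl (by omega)
    have := h (u + 1) (by omega) (by omega)
    linarith
  · have := h u le_rfl (by omega)
    have := h (u + 1) (by omega) (by omega)
    have := h (u + 1 + 1) (by omega) (by omega)
    linarith

section
variable {P P2 : PType} {i k : ℤ → ℤ} {φ : ℕ → ℕ} {x2 y2 : ℤ → ℝ} {ρ η : ℝ}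

/-- fine cells inside a coarse cell -/
lemma Refi.mem (h : Refi P P2 i k φ) {c : Cell} (hc : c ∈ P.Q) {d : Cell} (h1 : i c.1 ≤ d.1)
    (h2 : d.1 < i (c.1 + 1)) (h3 : k c.2 ≤ d.2) (h4 : d.2 < k (c.2 + 1)) : d ∈ P2.Q :=
  (h.Q d).2 ⟨c, hc, ⟨h1, h2⟩, h3, h4⟩

lemma col_of {i : ℤ → ℤ} (hi : StrictMono i) {a c u : ℤ} (h1 : i (a - 1) ≤ u) (h2 : u < i (a + 1))
    (h3 : i c ≤ u) (h4 : u < i (c + 1)) : c = a - 1 ∨ c = a := by
  have e1 : i (a - 1) < i (c + 1) := lt_of_le_of_lt h1 h4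
  have e2 : i c < i (a + 1) := lt_of_le_of_lt h3 h2
  rw [hi.lt_iff_lt] at e1 e2
  omega

lemma coarse_of (h : Refi P P2 i k φ) {a b : ℤ} {d : Cell} (hd : d ∈ P2.Q)
    (h1 : i (a - 1) ≤ d.1) (h2 : d.1 < i (a + 1)) (h3 : k (b - 1) ≤ d.2) (h4 : d.2 < k (b + 1)) :
    ∃ c ∈ P.Q, (c.1 = a - 1 ∨ c.1 = a) ∧ (c.2 = b - 1 ∨ c.2 = b) ∧
      (i c.1 ≤ d.1 ∧ d.1 < i (c.1 + 1)) ∧ (k c.2 ≤ d.2 ∧ d.2 < k (c.2 + 1)) := by
  obtain ⟨c, hc, h5, h6⟩ := (h.Q d).1 hd
  exact ⟨c, hc, col_of h.hi h1 h2 h5.1 h5.2, col_of h.hk h3 h4 h6.1 h6.2, h5, h6⟩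

/-- a cell of the box lies in the four coarse cells around the vertex -/
lemma inBox_coarse (hx : StrictMono x2) (hy : StrictMono y2) {a b : ℤ}
    (hg1 : ρ < x2 (i (a + 1)) - x2 (i a)) (hg2 : ρ < x2 (i a) - x2 (i (a - 1)))
    (hg3 : ρ < y2 (k (b + 1)) - y2 (k b)) (hg4 : ρ < y2 (k b) - y2 (k (b - 1)))
    {d : Cell} (hd : InBox x2 y2 ρ (i a, k b) d) :
    (i (a - 1) ≤ d.1 ∧ d.1 < i (a + 1)) ∧ (k (b - 1) ≤ d.2 ∧ d.2 < k (b + 1)) := by
  obtain ⟨⟨h1, h2⟩, h3, h4⟩ := hd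
  simp only at h1 h2 h3 h4
  refine ⟨⟨?_, ?_⟩, ?_, ?_⟩
  · have : x2 (i (a - 1)) < x2 d.1 := by linarith
    exact (hx.lt_iff_lt.1 this).le
  · have : x2 (d.1 + 1) < x2 (i (a + 1)) := by linarith
    have := hx.lt_iff_lt.1 this
    omega
  · have : y2 (k (b - 1)) < y2 d.2 := by linarith
    exact (hy.lt_iff_lt.1 this).le
  · have : y2 (d.2 + 1) < y2 (k (b + 1)) := by linarith
    have := hy.lt_iff_lt.1 this
    omega

/-- the columns near the vertex -/
lemma near_col (h : Refi P P2 i k φ) (hx : StrictMono x2) (hρ : 0 < ρ) (hη : 0 ≤ η)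
    (h3η : 3 * η ≤ ρ) (hm : MeshLe P2.Q x2 y2 η) {a b : ℤ}
    (hi3 : ∀ a', |a' - a| ≤ 1 → i a' % 3 = 0) {d : Cell} (hd : d ∈ P2.Q)
    (h1 : i a - 3 ≤ d.1) (h2 : d.1 < i a + 3) (h3 : k (b - 1) ≤ d.2) (h4 : d.2 < k (b + 1)) :
    x2 (i a) - ρ ≤ x2 d.1 ∧ x2 (d.1 + 1) ≤ x2 (i a) + ρ := by
  have m1 := hi3 a (by rw [sub_self]; norm_num)
  have m2 := hi3 (a - 1) (by rw [sub_sub_cancel_left]; norm_num)
  have m3 := hi3 (a + 1) (by rw [add_sub_cancel_left]; norm_num)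
  have s1 := h.hi (show a - 1 < a by omega)
  have s2 := h.hi (show a < a + 1 by omega)
  obtain ⟨c, hc, c1, c2, ⟨c3, c4⟩, c5, c6⟩ := coarse_of (a := a) (b := b) h hd (by omega) (by omega)
    h3 h4
  rcases c1 with c1 | c1
  · rw [c1, sub_add_cancel] at c4
    rw [c1] at c3
    have key : ∀ v, d.1 ≤ v → v < i a → x2 (v + 1) - x2 v ≤ η := by
      intro v v1 v2
      refine (hm (v, d.2) (h.mem hc ?_ ?_ c5 c6)).1
      · rw [c1]; simp only; omega
      · rw [c1, sub_add_cancel]; exact v2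
    have := mesh_sum hη key c4.le (by omega)
    have := hx.monotone (show d.1 + 1 ≤ i a by omega)
    constructor <;> linarith
  · rw [c1] at c3 c4
    have key : ∀ v, i a ≤ v → v < d.1 + 1 → x2 (v + 1) - x2 v ≤ η := by
      intro v v1 v2
      refine (hm (v, d.2) (h.mem hc ?_ ?_ c5 c6)).1
      · rw [c1]; exact v1
      · rw [c1]; simp only; omega
    have := mesh_sum hη key (by omega) (by omega)
    have := hx.monotone c3
    constructor <;> linarith

/-- the rows near the vertex -/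
lemma near_row (hρ : 0 < ρ) (_hη : 0 ≤ η) (h3η : 3 * η ≤ ρ) (hm : MeshLe P2.Q x2 y2 η) {kb : ℤ}
    {d : Cell} (hd : d ∈ P2.Q) (h1 : d.2 = kb ∨ d.2 = kb - 1) :
    y2 kb - ρ ≤ y2 d.2 ∧ y2 (d.2 + 1) ≤ y2 kb + ρ := by
  have := (hm d hd).2
  rcases h1 with h1 | h1 <;> rw [h1] at this ⊢
  · constructor <;> linarith
  · rw [sub_add_cancel] at this ⊢
    constructor <;> linarith

lemma hi3_flat (h : Refi P P2 i k φ) {l : ℕ} (_hl : FlatV P l) {a b : ℤ}
    (hab : P.vert l = (a, b)) (a' : ℤ) (ha : |a' - a| ≤ 1) : i a' % 3 = 0 := by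
  rw [abs_le] at ha
  have hc : ∃ c ∈ P.Q, c.1 = a ∨ c.1 = a - 1 := by
    rcases side_cells (P.isSide l) hab with ⟨-, -, r1, -⟩ | ⟨-, -, r1, -⟩ | ⟨-, -, r1, -⟩ |
      ⟨-, -, r1, -⟩
    · exact ⟨_, r1, Or.inl rfl⟩
    · exact ⟨_, r1, Or.inr rfl⟩
    · exact ⟨_, r1, Or.inr rfl⟩
    · exact ⟨_, r1, Or.inl rfl⟩
  obtain ⟨c, hc, h1⟩ := hc
  refine h.hi3 c hc a' ?_
  rw [abs_le]
  omega

/-- the rectangle of fine cells at a flat vertex -/
lemma rec_of (h : Refi P P2 i k φ) (hx : StrictMono x2) (hy : StrictMono y2) {l : ℕ}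
    (hl : FlatV P l) {a b : ℤ} (hab : P.vert l = (a, b)) (hρ : 0 < ρ) (hη : 0 ≤ η)
    (h3η : 3 * η ≤ ρ) (hm : MeshLe P2.Q x2 y2 η)
    (hg1 : ρ < x2 (i (a + 1)) - x2 (i a)) (hg2 : ρ < x2 (i a) - x2 (i (a - 1)))
    (hg3 : ρ < y2 (k (b + 1)) - y2 (k b)) (hg4 : ρ < y2 (k b) - y2 (k (b - 1))) :
    ∃ A0 A1 B0 B1 : ℤ, Rec P2 x2 y2 ρ (i a) (k b) A0 A1 B0 B1 (P2.side (φ l)).1.1
      (P2.side (φ l)).1.2 ∧ ((P2.side (φ l - 1)).1.1 = i a ∨ (P2.side (φ l - 1)).1.1 = i a - 1) ∧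
      ((P2.side (φ l - 1)).1.2 = k b ∨ (P2.side (φ l - 1)).1.2 = k b - 1) ∧
      (B0 ≤ (P2.side (φ l - 1)).1.2 ∧ (P2.side (φ l - 1)).1.2 < B1) := by
  have hv2 : P2.vert (φ l) = (i a, k b) := by rw [h.vert, hab]
  have hf2 := h.flat hl
  have hdir : (P2.side (φ l)).2 = (P.side l).2 := h.sdir l (φ l) le_rfl (h.hφ (by omega))
  have s1 := h.hi (show a - 1 < a by omega)
  have s2 := h.hi (show a < a + 1 by omega)
  have s3 := h.hk (show b - 1 < b by omega)
  have s4 := h.hk (show b < b + 1 by omega)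
  have ne : ∀ {c : Cell} {u v : ℤ}, c ∈ P.Q → (u, v) ∉ P.Q → c.1 = u → c.2 = v → False := by
    intro c u v h1 h2 h3 h4
    apply h2
    rw [← h3, ← h4]
    exact h1
  rcases flatV_cells hl hab with ⟨⟨k1, -, -⟩, q1, q2, q3, q4⟩ | ⟨⟨k1, -, -⟩, q1, q2, q3, q4⟩ |
    ⟨⟨k1, -, -⟩, q1, q2, q3, q4⟩ | ⟨⟨k1, -, -⟩, q1, q2, q3, q4⟩
  · -- direction 0
    rcases flatV_cells hf2 hv2 with ⟨⟨k2, e1, e2⟩, -⟩ | ⟨⟨k2, e1, e2⟩, -⟩ | ⟨⟨k2, e1, e2⟩, -⟩ |
      ⟨⟨k2, e1, e2⟩, -⟩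
    · refine ⟨i (a - 1), i (a + 1), k b, k (b + 1), ⟨?_, ?_, ?_, ?_, ?_, ?_⟩, ?_, ?_, ?_⟩
      · rw [e1]; exact ⟨Or.inl rfl, by simp only; omega, by simp only; omega⟩
      · rw [e1]; exact ⟨Or.inl rfl, by simp only; omega, by simp only; omega⟩
      · intro d d1 d2 d3 d4
        by_cases hd : d.1 < i a
        · exact h.mem q2 d1 (by simpa using hd) d3 d4
        · exact h.mem q1 (by simpa using hd) d2 d3 d4
      · intro d hd hb
        have hb' := inBox_coarse hx hy hg1 hg2 hg3 hg4 hb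
        refine ⟨hb'.1, ?_, hb'.2.2⟩
        obtain ⟨c, hc, c1, c2, c3, c4⟩ := coarse_of h hd hb'.1.1 hb'.1.2 hb'.2.1 hb'.2.2
        rcases c2 with c2 | c2
        · rcases c1 with c1 | c1
          · exact (ne hc q4 c1 c2).elim
          · exact (ne hc q3 c1 c2).elim
        · rw [← c2]; exact c4.1
      · intro d hd d1 d2 d3 d4
        exact near_col h hx hρ hη h3η hm (hi3_flat h hl hab) hd d1 d2 (by omega) d4
      · exact near_row hρ hη h3η hm (P2.isSide (φ l)).1 (by rw [e1]; exact Or.inl rfl)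
      · rw [e2]; exact Or.inr rfl
      · rw [e2]; exact Or.inl rfl
      · rw [e2]; exact ⟨by simp only; omega, by simp only; omega⟩
    all_goals (exfalso; omega)
  · -- direction 1
    rcases flatV_cells hf2 hv2 with ⟨⟨k2, e1, e2⟩, -⟩ | ⟨⟨k2, e1, e2⟩, -⟩ | ⟨⟨k2, e1, e2⟩, -⟩ |
      ⟨⟨k2, e1, e2⟩, -⟩
    · exfalso; omega
    · refine ⟨i (a - 1), i a, k (b - 1), k (b + 1), ⟨?_, ?_, ?_, ?_, ?_, ?_⟩, ?_, ?_, ?_⟩
      · rw [e1]; exact ⟨Or.inr rfl, by simp only; omega, by simp only; omega⟩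
      · rw [e1]; exact ⟨Or.inl rfl, by simp only; omega, by simp only; omega⟩
      · intro d d1 d2 d3 d4
        by_cases hd : d.2 < k b
        · exact h.mem q2 d1 (by simpa using d2) d3 (by simpa using hd)
        · exact h.mem q1 d1 (by simpa using d2) (by simpa using hd) d4
      · intro d hd hb
        have hb' := inBox_coarse hx hy hg1 hg2 hg3 hg4 hb
        refine ⟨⟨hb'.1.1, ?_⟩, hb'.2⟩
        obtain ⟨c, hc, c1, c2, c3, c4⟩ := coarse_of h hd hb'.1.1 hb'.1.2 hb'.2.1 hb'.2.2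
        rcases c1 with c1 | c1
        · have := c3.2
          rwa [c1, sub_add_cancel] at this
        · rcases c2 with c2 | c2
          · exact (ne hc q4 c1 c2).elim
          · exact (ne hc q3 c1 c2).elim
      · intro d hd d1 d2 d3 d4
        exact near_col h hx hρ hη h3η hm (hi3_flat h hl hab) hd d1 d2 d3 d4
      · exact near_row hρ hη h3η hm (P2.isSide (φ l)).1 (by rw [e1]; exact Or.inl rfl)
      · rw [e2]; exact Or.inr rfl
      · rw [e2]; exact Or.inr rfl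
      · rw [e2]; exact ⟨by simp only; omega, by simp only; omega⟩
    all_goals (exfalso; omega)
  · -- direction 2
    rcases flatV_cells hf2 hv2 with ⟨⟨k2, e1, e2⟩, -⟩ | ⟨⟨k2, e1, e2⟩, -⟩ | ⟨⟨k2, e1, e2⟩, -⟩ |
      ⟨⟨k2, e1, e2⟩, -⟩
    · exfalso; omega
    · exfalso; omega
    · refine ⟨i (a - 1), i (a + 1), k (b - 1), k b, ⟨?_, ?_, ?_, ?_, ?_, ?_⟩, ?_, ?_, ?_⟩
      · rw [e1]; exact ⟨Or.inr rfl, by simp only; omega, by simp only; omega⟩
      · rw [e1]; exact ⟨Or.inr rfl, by simp only; omega, by simp only; omega⟩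
      · intro d d1 d2 d3 d4
        by_cases hd : d.1 < i a
        · exact h.mem q1 d1 (by simpa using hd) d3 (by simpa using d4)
        · exact h.mem q2 (by simpa using hd) d2 d3 (by simpa using d4)
      · intro d hd hb
        have hb' := inBox_coarse hx hy hg1 hg2 hg3 hg4 hb
        refine ⟨hb'.1, hb'.2.1, ?_⟩
        obtain ⟨c, hc, c1, c2, c3, c4⟩ := coarse_of h hd hb'.1.1 hb'.1.2 hb'.2.1 hb'.2.2
        rcases c2 with c2 | c2
        · have := c4.2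
          rwa [c2, sub_add_cancel] at this
        · rcases c1 with c1 | c1
          · exact (ne hc q3 c1 c2).elim
          · exact (ne hc q4 c1 c2).elim
      · intro d hd d1 d2 d3 d4
        exact near_col h hx hρ hη h3η hm (hi3_flat h hl hab) hd d1 d2 d3 (by omega)
      · exact near_row hρ hη h3η hm (P2.isSide (φ l)).1 (by rw [e1]; exact Or.inr rfl)
      · rw [e2]; exact Or.inl rfl
      · rw [e2]; exact Or.inr rfl
      · rw [e2]; exact ⟨by simp only; omega, by simp only; omega⟩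
    · exfalso; omega
  · -- direction 3
    rcases flatV_cells hf2 hv2 with ⟨⟨k2, e1, e2⟩, -⟩ | ⟨⟨k2, e1, e2⟩, -⟩ | ⟨⟨k2, e1, e2⟩, -⟩ |
      ⟨⟨k2, e1, e2⟩, -⟩
    · exfalso; omega
    · exfalso; omega
    · exfalso; omega
    · refine ⟨i a, i (a + 1), k (b - 1), k (b + 1), ⟨?_, ?_, ?_, ?_, ?_, ?_⟩, ?_, ?_, ?_⟩
      · rw [e1]; exact ⟨Or.inl rfl, by simp only; omega, by simp only; omega⟩
      · rw [e1]; exact ⟨Or.inr rfl, by simp only; omega, by simp only; omega⟩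
      · intro d d1 d2 d3 d4
        by_cases hd : d.2 < k b
        · exact h.mem q1 d1 d2 d3 (by simpa using hd)
        · exact h.mem q2 d1 d2 (by simpa using hd) d4
      · intro d hd hb
        have hb' := inBox_coarse hx hy hg1 hg2 hg3 hg4 hb
        refine ⟨⟨?_, hb'.1.2⟩, hb'.2⟩
        obtain ⟨c, hc, c1, c2, c3, c4⟩ := coarse_of h hd hb'.1.1 hb'.1.2 hb'.2.1 hb'.2.2
        rcases c1 with c1 | c1
        · rcases c2 with c2 | c2
          · exact (ne hc q3 c1 c2).elim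
          · exact (ne hc q4 c1 c2).elim
        · rw [← c1]; exact c3.1
      · intro d hd d1 d2 d3 d4
        exact near_col h hx hρ hη h3η hm (hi3_flat h hl hab) hd d1 d2 d3 d4
      · exact near_row hρ hη h3η hm (P2.isSide (φ l)).1 (by rw [e1]; exact Or.inr rfl)
      · rw [e2]; exact Or.inl rfl
      · rw [e2]; exact Or.inl rfl
      · rw [e2]; exact ⟨by simp only; omega, by simp only; omega⟩

end

/-- a common lower bound -/
lemma exists_common (s : Finset ℕ) (Q : ℕ → ℝ → Prop) (h : ∀ l ∈ s, ∃ r, 0 < r ∧ Q l r)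
    (hQ : ∀ l r r', r' ≤ r → Q l r → Q l r') : ∃ r, 0 < r ∧ ∀ l ∈ s, Q l r := by
  induction s using Finset.induction_on with
  | empty => exact ⟨1, one_pos, by simp⟩
  | insert a t _ ih =>
    obtain ⟨r1, h1, h2⟩ := ih (fun l hl => h l (Finset.mem_insert_of_mem hl))
    obtain ⟨r2, h3, h4⟩ := h a (Finset.mem_insert_self _ _)
    refine ⟨min r1 r2, lt_min h1 h3, fun l hl => ?_⟩
    rcases Finset.mem_insert.1 hl with rfl | hl
    · exact hQ _ _ _ (min_le_right _ _) h4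
    · exact hQ _ _ _ (min_le_left _ _) (h2 l hl)

/-- **(KB)** -/
theorem stKB : StKB := by
  intro P x y hx hy n1 s hM
  obtain ⟨ρ0, hρ0, hgap⟩ := exists_common s (fun l r =>
    (r < x ((P.vert l).1 + 1) - x (P.vert l).1 ∧ r < x (P.vert l).1 - x ((P.vert l).1 - 1)) ∧
    (r < y ((P.vert l).2 + 1) - y (P.vert l).2 ∧ r < y (P.vert l).2 - y ((P.vert l).2 - 1)))
    (fun l _ => by
      have h1 : 0 < x ((P.vert l).1 + 1) - x (P.vert l).1 := sub_pos.2 (hx (by omega))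
      have h2 : 0 < x (P.vert l).1 - x ((P.vert l).1 - 1) := sub_pos.2 (hx (by omega))
      have h3 : 0 < y ((P.vert l).2 + 1) - y (P.vert l).2 := sub_pos.2 (hy (by omega))
      have h4 : 0 < y (P.vert l).2 - y ((P.vert l).2 - 1) := sub_pos.2 (hy (by omega))
      set m := min (min (x ((P.vert l).1 + 1) - x (P.vert l).1)
        (x (P.vert l).1 - x ((P.vert l).1 - 1))) (min (y ((P.vert l).2 + 1) - y (P.vert l).2)
        (y (P.vert l).2 - y ((P.vert l).2 - 1))) with hm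
      have hm0 : 0 < m := lt_min (lt_min h1 h2) (lt_min h3 h4)
      have m1 : m ≤ x ((P.vert l).1 + 1) - x (P.vert l).1 := (min_le_left _ _).trans (min_le_left _ _)
      have m2 : m ≤ x (P.vert l).1 - x ((P.vert l).1 - 1) :=
        (min_le_left _ _).trans (min_le_right _ _)
      have m3 : m ≤ y ((P.vert l).2 + 1) - y (P.vert l).2 :=
        (min_le_right _ _).trans (min_le_left _ _)
      have m4 : m ≤ y (P.vert l).2 - y ((P.vert l).2 - 1) :=
        (min_le_right _ _).trans (min_le_right _ _)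
      exact ⟨m / 2, by linarith, ⟨by linarith, by linarith⟩, by linarith, by linarith⟩)
    (fun l r r' hr h => ⟨⟨by linarith [h.1.1], by linarith [h.1.2]⟩, by linarith [h.2.1],
      by linarith [h.2.2]⟩)
  refine ⟨ρ0, hρ0, fun ρ hρ hρle => ⟨ρ / 3, by positivity, ?_⟩⟩
  intro P2 i k φ x2 y2 hR hx2 hy2 hxe hye hm
  subst hxe hye
  constructor
  · intro l hl
    obtain ⟨⟨a, b⟩, hab⟩ : ∃ v : ℤ × ℤ, P.vert l = v := ⟨_, rfl⟩
    have hg := hgap l hl
    rw [hab] at hg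
    simp only [Function.comp] at hg
    obtain ⟨⟨g1, g2⟩, g3, g4⟩ := hg
    have hl' := (hM.2 l hl).1
    obtain ⟨A0, A1, B0, B1, hrec, e1, e2, e3⟩ := rec_of hR hx2 hy2 hl' hab hρ
      (η := ρ / 3) (by positivity) (by linarith) hm (lt_of_le_of_lt hρle g1)
      (lt_of_le_of_lt hρle g2) (lt_of_le_of_lt hρle g3) (lt_of_le_of_lt hρle g4)
    have hv2 : P2.vert (φ l) = (i a, k b) := by rw [hR.vert, hab]
    have hS1 : (P2.side (φ l)).1 ∈ Kb P2 x2 y2 ρ (φ l) :=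
      hrec.mid (hi3_flat hR hl' hab a (by rw [sub_self]; norm_num)) hv2 (P2.isSide _).1 hrec.h1.1 hrec.h2.2 hrec.r4
    have hS2 : (P2.side (φ l - 1)).1 ∈ Kb P2 x2 y2 ρ (φ l) :=
      hrec.mid (hi3_flat hR hl' hab a (by rw [sub_self]; norm_num)) hv2 (P2.isSide _).1 e1 e3
        (near_row hρ (η := ρ / 3) (by positivity) (by linarith) hm (P2.isSide _).1 e2)
    refine ⟨?_, hS2, hS1⟩
    classical
    unfold Hs
    rw [Finset.mem_filter, Finset.mem_powerset]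
    have hsub : Kb P2 x2 y2 ρ (φ l) ⊆ P2.Q := fun c hc => (mem_Kb.1 hc).1
    have hoff : ∀ c ∈ Kb P2 x2 y2 ρ (φ l), ∀ n' < P.N, CV c (P2.vert (φ n')) → l = n' := by
      intro c hc n' hn' hcv
      have hcb := (mem_Kb.1 hc).2 c (mem_Kb.1 hc).1 rfl
      rw [hv2] at hcb
      obtain ⟨⟨b1, b2⟩, b3, b4⟩ := hcb
      obtain ⟨⟨a', b'⟩, hab'⟩ : ∃ v : ℤ × ℤ, P.vert n' = v := ⟨_, rfl⟩
      rw [hR.vert, hab'] at hcv
      obtain ⟨v1, v2⟩ := hcv
      simp only at b1 b2 b3 b4 v1 v2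
      have hxa : |x2 (i a') - x2 (i a)| ≤ ρ := by
        have := hx2.monotone (show c.1 ≤ c.1 + 1 by omega)
        rw [abs_le]
        rcases v1 with v1 | v1 <;> rw [v1] <;> constructor <;> linarith
      have hya : |y2 (k b') - y2 (k b)| ≤ ρ := by
        have := hy2.monotone (show c.2 ≤ c.2 + 1 by omega)
        rw [abs_le]
        rcases v2 with v2 | v2 <;> rw [v2] <;> constructor <;> linarith
      rw [abs_le] at hxa hya
      have ea : a' = a := by
        by_contra hne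
        rcases lt_or_gt_of_ne hne with h1 | h1
        · have := hx2.monotone (hR.hi.monotone (show a' ≤ a - 1 by omega))
          linarith [hxa.1]
        · have := hx2.monotone (hR.hi.monotone (show a + 1 ≤ a' by omega))
          linarith [hxa.2]
      have eb : b' = b := by
        by_contra hne
        rcases lt_or_gt_of_ne hne with h1 | h1
        · have := hy2.monotone (hR.hk.monotone (show b' ≤ b - 1 by omega))
          linarith [hya.1]
        · have := hy2.monotone (hR.hk.monotone (show b + 1 ≤ b' by omega))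
          linarith [hya.2]
      exact flat_inj hl' hn' (by rw [hab', hab, ea, eb])
    have hlt := (hM.2 l hl).2
    have hmN := P.hmN
    have hm1 := hM.1.2.1
    have hlm := hl'.2.1
    have hφ0 : 0 < φ n1 := by rw [← hR.zero]; exact hR.hφ hM.1.1
    have hφN : 0 < P2.N := by rw [← hR.N, ← hR.zero]; exact hR.hφ (by omega)
    refine ⟨hsub, ⟨hsub, ?_⟩, ?_, ?_, ?_, ?_⟩
    · intro c hc d hd hdc
      exact mem_Kb.2 ⟨hd, fun e he hed => (mem_Kb.1 hc).2 e he (hed.trans hdc)⟩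
    · intro hc
      have := hoff _ hc n1 (by omega) (cv_tail _)
      omega
    · intro hc
      have h6 := cv_head (P2.side (φ n1 - 1))
      rw [← vert_succ, show φ n1 - 1 + 1 = φ n1 by omega] at h6
      have := hoff _ hc n1 (by omega) h6
      omega
    · intro hc
      have h6 := cv_head (P2.side (P2.N - 1))
      rw [← vert_succ, show P2.N - 1 + 1 = P2.N by omega, vert_N, ← hR.zero] at h6
      have := hoff _ hc 0 (by omega) h6
      have := hl'.1
      omega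
    · intro c hc
      refine ⟨φ l, hR.hφ (hM.2 l hl).2, (hR.flat hl').2.1, ?_⟩
      exact hrec.path hx2 hy2 (hi3_flat hR hl' hab a (by rw [sub_self]; norm_num)) hv2 hc
  · intro R X Y hA
    rw [Finset.eventually_all]
    intro l hl
    have key : ∀ᶠ j in atTop, ∀ c ∈ Kb P2 x2 y2 ρ (φ l),
        ((X j (P2.vert (φ l)).1 : ℝ) - 2 * ρ * R j ≤ X j c.1 ∧
          (X j (c.1 + 1) : ℝ) ≤ X j (P2.vert (φ l)).1 + 2 * ρ * R j) ∧
        ((Y j (P2.vert (φ l)).2 : ℝ) - 2 * ρ * R j ≤ Y j c.2 ∧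
          (Y j (c.2 + 1) : ℝ) ≤ Y j (P2.vert (φ l)).2 + 2 * ρ * R j) := by
      rw [Finset.eventually_all]
      intro c hc
      have hcb := (mem_Kb.1 hc).2 c (mem_Kb.1 hc).1 rfl
      obtain ⟨⟨b1, b2⟩, b3, b4⟩ := hcb
      have t1 := ((hA.app.X_lim c.1).sub (hA.app.X_lim (P2.vert (φ l)).1)).eventually
        (lt_mem_nhds (show -(2 * ρ) < x2 c.1 - x2 (P2.vert (φ l)).1 by linarith))
      have t2 := ((hA.app.X_lim (c.1 + 1)).sub (hA.app.X_lim (P2.vert (φ l)).1)).eventually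
        (gt_mem_nhds (show x2 (c.1 + 1) - x2 (P2.vert (φ l)).1 < 2 * ρ by linarith))
      have t3 := ((hA.app.Y_lim c.2).sub (hA.app.Y_lim (P2.vert (φ l)).2)).eventually
        (lt_mem_nhds (show -(2 * ρ) < y2 c.2 - y2 (P2.vert (φ l)).2 by linarith))
      have t4 := ((hA.app.Y_lim (c.2 + 1)).sub (hA.app.Y_lim (P2.vert (φ l)).2)).eventually
        (gt_mem_nhds (show y2 (c.2 + 1) - y2 (P2.vert (φ l)).2 < 2 * ρ by linarith))
      filter_upwards [t1, t2, t3, t4, hA.app.R_top.eventually_gt_atTop 0] with j j1 j2 j3 j4 j5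
      rw [← sub_div, lt_div_iff₀ j5] at j1 j3
      rw [← sub_div, div_lt_iff₀ j5] at j2 j4
      exact ⟨⟨by linarith, by linarith⟩, by linarith, by linarith⟩
    filter_upwards [key] with j hj
    intro e he
    unfold LA at he
    rw [Finset.mem_sdiff] at he
    have hgs : e ∈ gs (X j) (Y j) P2.Q := by
      have := he.1
      unfold EL at this
      exact (Finset.mem_sdiff.1 this).1
    obtain ⟨c, hc, hc'⟩ := mem_gs.1 hgs
    have hcK : c ∈ Kb P2 x2 y2 ρ (φ l) := by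
      by_contra h
      exact he.2 (mem_gs.2 ⟨c, Finset.mem_sdiff.2 ⟨hc, h⟩, hc'⟩)
    obtain ⟨⟨j1, j2⟩, j3, j4⟩ := hj c hcK
    unfold gcell at hc'
    rw [mem_Bx] at hc'
    obtain ⟨⟨c1, c2⟩, ⟨c3, c4⟩, -⟩ := hc'
    have c1' : (2 * X j c.1 : ℝ) ≤ e.1 := by exact_mod_cast c1
    have c2' : (e.1 : ℝ) ≤ 2 * X j (c.1 + 1) := by exact_mod_cast c2
    have c3' : (2 * Y j c.2 : ℝ) ≤ e.2 := by exact_mod_cast c3
    have c4' : (e.2 : ℝ) ≤ 2 * Y j (c.2 + 1) := by exact_mod_cast c4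
    unfold Pool.Agent.Q1.M5.lv lpt
    simp only
    rw [abs_le, abs_le]
    exact ⟨⟨by linarith, by linarith⟩, by linarith, by linarith⟩

end Pool.Agent.H44.Q1
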