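import Mathlib
import Pool.Agent.H44.Q1.C2
import Pool.Agent.H49.Q1.NHP

set_option autoImplicit false
open Set Filter Topology

/-! Step C2, statement (NH), from helper49's `nh_pz`. -/

namespace Pool.Agent.H44.Q1

open Pool.Agent.H75.Perc hiding WL hh
open Pool.Agent.H75.Four Pool.Agent.H49.Q1 Pool.Agent.Q1.M4 Pool.Agent.Q1.M5 Pool.Agent.H52.Q1

lemma nearL_sub {P : PType} {X Y : ℤ → ℤ} (hX : StrictMono X) (hY : StrictMono Y) {n : ℕ}
    (h : FlatV P n) {m : ℤ} (hm : 0 ≤ m) (hs : Small X Y (P.vert n) m) {L : Finset (ℤ × ℤ)}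
    (hL : L ⊆ EL P X Y) {r : ℝ} (hr : r ≤ m) (hn : NearL L (lv P X Y n) r) :
    L ⊆ HB (Sd (P.side n).2 (lv P X Y n)) m := by
  have hf := (flat_EL hX hY h hm hs).1
  intro e he
  have h1 := hn e he
  have hEe := hL he
  refine (hf e ?_).1 hEe
  have hgs : e ∈ gs X Y P.Q := by
    unfold EL at hEe
    exact (Finset.mem_sdiff.1 hEe).1
  obtain ⟨c, -, hc⟩ := mem_gs.1 hgs
  unfold gcell at hc
  rw [mem_Bx] at hc
  rw [FB_Sd, mem_Bx]
  obtain ⟨h2, h3⟩ := h1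
  rw [abs_le] at h2 h3
  have a1 : (2 * ((lv P X Y n).1 - m) : ℝ) ≤ e.1 := by linarith [h2.1]
  have a2 : (e.1 : ℝ) ≤ 2 * ((lv P X Y n).1 + m) := by linarith [h2.2]
  have a3 : (2 * ((lv P X Y n).2 - m) : ℝ) ≤ e.2 := by linarith [h3.1]
  have a4 : (e.2 : ℝ) ≤ 2 * ((lv P X Y n).2 + m) := by linarith [h3.2]
  exact ⟨⟨by exact_mod_cast a1, by exact_mod_cast a2⟩, ⟨by exact_mod_cast a3, by exact_mod_cast a4⟩,
    hc.2.2⟩

/-- **(NH)** -/
theorem stNH {pz : ℝ → ℝ} (hpz : StPz pz) : StNH pz := by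
  intro P x y hx hy n1 s hM
  have hn1 : n1 ∉ s := fun h => lt_irrefl _ (hM.2 n1 h).2
  have hF : ∀ n ∈ insert n1 s, FlatV P n := by
    intro n hn
    rcases Finset.mem_insert.1 hn with rfl | hn
    · exact hM.1
    · exact (hM.2 n hn).1
  obtain ⟨C, c, hC, hc, hmain⟩ := nh_pz hpz P hx hy (insert n1 s) hF
  obtain ⟨c0, hc0, hs⟩ : ∃ c0 : ℝ, 0 < c0 ∧ ∀ (R : ℕ → ℝ) (X Y : ℕ → ℤ → ℤ), Approx x y R X Y →
      ∀ᶠ j in atTop, ∀ n ∈ insert n1 s, ∀ r : ℤ, (r : ℝ) ≤ c0 * R j →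
        Small (X j) (Y j) (P.vert n) r := by
    clear hmain hF hn1 hM
    induction insert n1 s using Finset.induction_on with
    | empty => exact ⟨1, one_pos, fun _ _ _ _ => by simp⟩
    | insert a t _ ih =>
      obtain ⟨c1, hc1, h1⟩ := ih
      obtain ⟨c2, hc2, h2⟩ := small_ev hx hy (P.vert a)
      refine ⟨min c1 c2, lt_min hc1 hc2, fun R X Y hA => ?_⟩
      filter_upwards [h1 R X Y hA, h2 R X Y hA, hA.R_top.eventually_ge_atTop 0] with j h3 h4 h5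
      intro n hn r hr
      rcases Finset.mem_insert.1 hn with rfl | hn
      · exact h4 r (hr.trans (mul_le_mul_of_nonneg_right (min_le_right _ _) h5))
      · exact h3 n hn r (hr.trans (mul_le_mul_of_nonneg_right (min_le_left _ _) h5))
  refine ⟨C * 3 ^ (1 / 3 : ℝ), min c c0 / 3, by positivity, by positivity, ?_⟩
  intro ρ hρ hρ0 R X Y hA
  filter_upwards [hmain R X Y hA, hs R X Y hA.app, hA.mono,
    hA.app.R_top.eventually_ge_atTop (1 / ρ)] with j h1 h2 h3 h4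
  intro l hl L hL hLn
  have hRp : 0 < R j := lt_of_lt_of_le (by positivity) h4
  have hρR : 1 ≤ ρ * R j := by
    have := mul_le_mul_of_nonneg_left h4 hρ.le
    rwa [mul_one_div_cancel hρ.ne'] at this
  set m : ℤ := ⌈2 * ρ * R j⌉ with hm
  have hm1 : 2 * ρ * R j ≤ m := Int.le_ceil _
  have hm2 : (m : ℝ) ≤ 3 * (ρ * R j) := by
    have := (Int.ceil_lt_add_one (2 * ρ * R j)).le
    linarith
  have hm3 : (1 : ℝ) ≤ m := by linarith
  have hm4 : (1 : ℤ) ≤ m := by exact_mod_cast hm3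
  have hmc : (m : ℝ) ≤ min c c0 * R j := by
    have : 3 * ρ * R j ≤ min c c0 * R j := mul_le_mul_of_nonneg_right (by linarith) hRp.le
    linarith
  have hls : l ∈ insert n1 s := Finset.mem_insert_of_mem hl
  have hsm := h2 l hls m (hmc.trans (mul_le_mul_of_nonneg_right (min_le_right _ _) hRp.le))
  have hLB := nearL_sub h3.1 h3.2 (hF l hls) (by omega) hsm hL hm1 hLn
  have h5 := h1 l hls n1 (Finset.mem_insert_self _ _)
    (fun h => hn1 (h ▸ hl)) m hm4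
    (hmc.trans (mul_le_mul_of_nonneg_right (min_le_left _ _) hRp.le)) L hLB
  rw [Finset.card_insert_of_notMem hn1] at h5
  refine h5.trans ?_
  have hp : 0 ≤ pz (R j) ^ (s.card + 1) := pow_nonneg (hpz.1 _).le _
  have h6 : ((m : ℝ) / R j) ^ (1 / 3 : ℝ) ≤ 3 ^ (1 / 3 : ℝ) * ρ ^ (1 / 3 : ℝ) := by
    rw [← Real.mul_rpow (by norm_num) hρ.le]
    refine Real.rpow_le_rpow (by positivity) ?_ (by norm_num)
    rw [div_le_iff₀ hRp]
    linarith
  calc C * ((m : ℝ) / R j) ^ (1 / 3 : ℝ) * pz (R j) ^ (s.card + 1)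
      ≤ C * (3 ^ (1 / 3 : ℝ) * ρ ^ (1 / 3 : ℝ)) * pz (R j) ^ (s.card + 1) := by gcongr
    _ = C * 3 ^ (1 / 3 : ℝ) * ρ ^ (1 / 3 : ℝ) * pz (R j) ^ (s.card + 1) := by ring

end Pool.Agent.H44.Q1
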