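import Mathlib
import Pool.Agent.H29.Q1.LineExt
import Pool.Agent.H90.Q1.LBGlob

set_option autoImplicit false
set_option linter.unusedSimpArgs false
open Finset

/-! Module M5 of Q1, step C2, lower bound LB2: the finite statement depends only on the lattice lines
at the cells of the type, so the statement with all gaps large implies the statement with gaps large
near the cells. -/

namespace Pool.Agent.H44.Q1

open Pool.Agent.H75.Perc hiding WL
open Pool.Agent.H75.TwoArm Pool.Agent.H75.Four Pool.Agent.Q1.M4 Pool.Agent.Q1.M5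
open Pool.Agent.H49.Q1 (gs Sd HB AS VI VB FB Flat far)
open Pool.Agent.H5.Q1 (LF EF mem_LF gp slen sc stp SS tn oc)
open Pool.Agent.H29.Q1 (pcor pos posB AgQ cor tail_cell exists_ext)
open Pool.Agent.H90.Q1 (rt StLBglob StLBfin)

section agq

variable {Q : Finset Cell} {X X' Y Y' : ℤ → ℤ}

lemma agq_mono (h : AgQ Q X X' Y Y') {Q' : Finset Cell} (hs : Q' ⊆ Q) : AgQ Q' X X' Y Y' :=
  fun c hc => h c (hs hc)

lemma agq_inRect (h : AgQ Q X X' Y Y') {c : Cell} (hc : c ∈ Q) (v : ℤ × ℤ) :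
    inRect X' Y' c v ↔ inRect X Y c v := by
  obtain ⟨h1, h2, h3, h4⟩ := h c hc
  unfold inRect
  rw [h1, h2, h3, h4]

lemma agq_LF (h : AgQ Q X X' Y Y') : LF Q X' Y' = LF Q X Y := by
  ext f
  rw [mem_LF, mem_LF]
  constructor
  · rintro ⟨c, hc, he⟩
    obtain ⟨h1, h2, h3, h4⟩ := h c hc
    rw [h1, h2, h3, h4] at he
    exact ⟨c, hc, he⟩
  · rintro ⟨c, hc, he⟩
    obtain ⟨h1, h2, h3, h4⟩ := h c hc
    refine ⟨c, hc, ?_⟩
    rw [h1, h2, h3, h4]
    exact he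

lemma agq_slen (h : AgQ Q X X' Y Y') {s : Cell × ℤ} (hs : s.1 ∈ Q) :
    slen X' Y' s = slen X Y s := by
  obtain ⟨h1, h2, h3, h4⟩ := h s.1 hs
  unfold slen
  rw [h1, h2, h3, h4]

lemma agq_stp (h : AgQ Q X X' Y Y') {s : Cell × ℤ} (hs : s.1 ∈ Q) :
    stp Q X' Y' s = stp Q X Y s := by
  unfold stp
  rw [agq_slen h hs]

lemma agq_SS (h : AgQ Q X X' Y Y') {s : Cell × ℤ} (hs : IsSide Q s) (n : ℕ) :
    SS Q X' Y' s n = SS Q X Y s n := by
  unfold SS
  exact sum_congr rfl fun i _ => agq_stp h (H5.Q1.isSide_iter hs i).1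

lemma agq_sc (h : AgQ Q X X' Y Y') {s : Cell × ℤ} (hs : s.1 ∈ Q) :
    sc X' Y' s = sc X Y s := by
  have h1 := tail_cell s
  have h2 : gp X' Y' (tail s) = gp X Y (tail s) := h.lpt hs (by omega) (by omega)
  unfold sc
  rw [h2]

lemma agq_cor (h : AgQ Q X X' Y Y') {s : Cell × ℤ} (hs : s.1 ∈ Q) (i : ℕ) :
    cor Q X' Y' s i = cor Q X Y s i := by
  unfold cor
  rw [agq_LF h, agq_sc h hs]

end agq

section agp

variable {P : PType} {X X' Y Y' : ℤ → ℤ}

lemma agq_pos (h : AgQ P.Q X X' Y Y') (n : ℕ) : pos P X' Y' n = pos P X Y n :=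
  agq_SS h P.side0 n

lemma agq_rt (h : AgQ P.Q X X' Y Y') (n : ℕ) : rt P X' Y' n = rt P X Y n := by
  unfold rt
  rw [agq_pos h]

lemma agq_pcor (h : AgQ P.Q X X' Y Y') (i : ℕ) : pcor P X' Y' i = pcor P X Y i :=
  agq_cor h P.side0.1 i

lemma agq_posB (h : AgQ P.Q X X' Y Y') : posB P X' Y' = posB P X Y := by
  unfold posB
  rw [agq_pos h, agq_slen h (H29.Q1.isSide P _).1]

lemma agq_LA (h : AgQ P.Q X X' Y Y') (A : Finset Cell) : LA P X' Y' A = LA P X Y A := by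
  unfold LA
  rw [h.EL, (agq_mono h sdiff_subset).gs]

lemma agq_XA (h : AgQ P.Q X X' Y Y') (n1 : ℕ) (A : Finset Cell) (ω : Finset (ℤ × ℤ)) :
    XA P X' Y' n1 A ω ↔ XA P X Y n1 A ω := by
  unfold XA
  rw [h.lv, agq_LA h, h.CT]

lemma agq_Ah (h : AgQ P.Q X X' Y Y') (n1 : ℕ) (ω : Finset (ℤ × ℤ)) :
    Ah P X' Y' n1 ω = Ah P X Y n1 ω := by
  unfold Ah
  have : XA P X' Y' n1 = XA P X Y n1 := by
    funext A ω
    exact propext (agq_XA h n1 A ω)
  rw [this]

lemma agq_BA (h : AgQ P.Q X X' Y Y') (A : Finset Cell) (v : ℤ × ℤ) (ω : Finset (ℤ × ℤ)) :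
    BA P X' Y' A v ω ↔ BA P X Y A v ω := by
  unfold BA
  rw [agq_LA h]
  refine exists_congr fun z => ?_
  rw [h.TV, (agq_mono h sdiff_subset).inV]

lemma agq_GG (h : AgQ P.Q X X' Y Y') (n1 : ℕ) (s : Finset ℕ) (K : ℕ → Finset Cell)
    (ω : Finset (ℤ × ℤ)) : GG P X' Y' n1 s K ω ↔ GG P X Y n1 s K ω := by
  unfold GG
  rw [agq_Ah h, h.lv]
  refine and_congr (h.CT _ _) (and_congr Iff.rfl (and_congr ?_ (not_congr ?_)))
  · refine forall_congr' fun l => forall_congr' fun _ => ?_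
    rw [h.lv, agq_BA h]
  · refine forall_congr' fun l => forall_congr' fun _ => ?_
    rw [h.lv, h.CT]

lemma agq_Mesh (h : AgQ P.Q X X' Y Y') {w : ℤ} (hm : H90.Q1.Mesh P X Y w) :
    H90.Q1.Mesh P X' Y' w := by
  refine ⟨fun c hc e he ht => ?_, fun c hc => ?_⟩
  · have := hm.1 c hc e he ht
    rw [(h e he).2.1, (h c hc).1]
    exact this
  · have := hm.2 c hc
    rw [(h c hc).2.2.1, (h c hc).2.2.2]
    exact this

end agp

/-- **The finite lower bound needs large gaps only near the cells of the type.** -/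
theorem stLBfin_of (H : StLBglob) : StLBfin := by
  obtain ⟨δ, hδ0, hδ1, H⟩ := H
  refine ⟨δ, hδ0, hδ1, ?_⟩
  intro P X Y hTri hGap n1 s K hM hK ρ D w k hρ hw hD hMesh hFlat hVI hfar hcell hsep
  obtain ⟨X', Y', hX', hY', h⟩ := exists_ext P.good hGap
  have key := H P X' Y' hTri hX' hY' n1 s K hM hK ρ D w k hρ hw hD (agq_Mesh h hMesh)
  rw [h.EL, h.WL, h.lv] at key
  have e1 : ∀ l, lv P X' Y' l = lv P X Y l := h.lv
  have e2 : ∀ i, pcor P X' Y' i = pcor P X Y i := agq_pcor h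
  have e3 : ∀ i, rt P X' Y' i = rt P X Y i := agq_rt h
  have e4 : posB P X' Y' = posB P X Y := agq_posB h
  have e5 : CT P X' Y' (lv P X Y n1) = CT P X Y (lv P X Y n1) := by
    funext ω
    exact propext (h.CT _ ω)
  have e6 : GG P X' Y' n1 s K = GG P X Y n1 s K := by
    funext ω
    exact propext (agq_GG h n1 s K ω)
  simp only [e1, e2, e3, e4, e5, e6] at key
  refine key hFlat (fun l hl v hv => hVI l hl v ((h.TV v).1 hv)) hfar ?_ hsep
  intro l hl c hc hcK v hv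
  exact hcell l hl c hc hcK v ((agq_inRect h hc v).1 hv)

end Pool.Agent.H44.Q1
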